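import Pool.Agent.Helper35.PM.Defs2

set_option autoImplicit false

/-!
# PM-8: the leaf lemma
-/

namespace Pool.Agent.Helper35.PM

open Finset
open scoped Classical

namespace Leaf

variable {V : Type}

/-- the union of a list of sets -/
noncomputable def U (l : List (Finset V)) : Finset V := l.toFinset.biUnion id

theorem mem_U {l : List (Finset V)} {x : V} : x ∈ U l ↔ ∃ S ∈ l, x ∈ S := by
  simp [U]

theorem U_append (l l' : List (Finset V)) : U (l ++ l') = U l ∪ U l' := by
  ext x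
  simp only [mem_U, Finset.mem_union, List.mem_append]
  constructor
  · rintro ⟨S, h | h, hx⟩
    · exact Or.inl ⟨S, h, hx⟩
    · exact Or.inr ⟨S, h, hx⟩
  · rintro (⟨S, h, hx⟩ | ⟨S, h, hx⟩)
    · exact ⟨S, Or.inl h, hx⟩
    · exact ⟨S, Or.inr h, hx⟩

theorem U_perm {l l' : List (Finset V)} (h : l.Perm l') : U l = U l' := by
  ext x
  simp only [mem_U, h.mem_iff]

/-- sum of the sizes -/
def sz (l : List (Finset V)) : ℕ := (l.map Finset.card).sum

theorem Sepd.symm' {κ : ℕ} {Q : SimpleGraph V} {X : Finset V} {x y : V} (h : Sepd κ Q X x y) :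
    Sepd κ Q X y x := by
  obtain ⟨X₁, X₂, h1, h2, h3, h4⟩ := h
  refine ⟨X₂, X₁, ⟨?_, ?_⟩, ?_, h4, h3⟩
  · rw [Finset.union_comm]; exact h1.1
  · intro a ha b hb hab
    exact h1.2 b hb a ha hab.symm
  · rw [Finset.inter_comm]; exact h2

/-- the tree of separations -/
theorem exists_leaves (κ : ℕ) (Q : SimpleGraph V) (X : Finset V) (n : ℕ) :
    ∀ P ⊆ X, P.card = n → ∃ bigs smalls : List (Finset V),
      (∀ L ∈ bigs, κ < L.card ∧ L ⊆ P ∧ ∀ X₁ X₂, IsSep Q X X₁ X₂ → (X₁ ∩ X₂).card < κ →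
        L ⊆ X₁ ∨ L ⊆ X₂) ∧
      (∀ S ∈ smalls, S.card ≤ κ ∧ S ⊆ P) ∧
      (∀ x ∈ P, ∀ y ∈ P, ¬ Sepd κ Q X x y →
        (∃ L ∈ bigs, x ∈ L ∧ y ∈ L) ∨ ∃ S ∈ smalls, x ∈ S ∧ y ∈ S) ∧
      (∀ l : List (Finset V), l.Sublist bigs → l ≠ [] → sz l + κ ≤ (U l).card + κ * l.length) ∧
      (κ < P.card → smalls.length + 1 ≤ 3 * (P.card - κ)) ∧ (P.card ≤ κ → smalls.length ≤ 1) := by
  induction n using Nat.strong_induction_on with
  | _ n ih =>
  intro P hPX hn
  by_cases hsmall : P.card ≤ κ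
  · refine ⟨[], [P], ?_, ?_, ?_, ?_, ?_, ?_⟩
    · intro L hL; simp at hL
    · intro S hS
      rw [List.mem_singleton] at hS
      subst hS
      exact ⟨hsmall, Finset.Subset.rfl⟩
    · intro x hx y hy _
      exact Or.inr ⟨P, List.mem_singleton_self P, hx, hy⟩
    · intro l hl hne
      exact absurd (List.sublist_nil.1 hl) hne
    · intro h; omega
    · intro _; simp
  push Not at hsmall
  by_cases hsplit : ∀ X₁ X₂, IsSep Q X X₁ X₂ → (X₁ ∩ X₂).card < κ → P ⊆ X₁ ∨ P ⊆ X₂
  · refine ⟨[P], [], ?_, ?_, ?_, ?_, ?_, ?_⟩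
    · intro L hL
      rw [List.mem_singleton] at hL
      subst hL
      exact ⟨hsmall, Finset.Subset.rfl, hsplit⟩
    · intro S hS; simp at hS
    · intro x hx y hy _
      exact Or.inl ⟨P, List.mem_singleton_self P, hx, hy⟩
    · intro l hl hne
      have h1 : l = [P] := by
        rcases List.sublist_singleton.1 hl with h | h
        · exact absurd h hne
        · exact h
      rw [h1]
      have : U [P] = P := by ext x; simp [mem_U]
      rw [this]
      simp [sz]
    · intro _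
      simp only [List.length_nil]
      omega
    · intro _; simp
  push Not at hsplit
  obtain ⟨X₁, X₂, hsep, hlt, hP1, hP2⟩ := hsplit
  have hcov : ∀ x ∈ P, x ∈ X₁ ∨ x ∈ X₂ := by
    intro x hx
    rw [← Finset.mem_union, hsep.1]
    exact hPX hx
  have hlt1 : (P ∩ X₁).card < P.card := by
    apply Finset.card_lt_card
    rw [Finset.ssubset_iff_of_subset Finset.inter_subset_left]
    rw [Finset.not_subset] at hP1
    obtain ⟨x, hx, hx'⟩ := hP1
    exact ⟨x, hx, fun h => hx' (Finset.mem_inter.1 h).2⟩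
  have hlt2 : (P ∩ X₂).card < P.card := by
    apply Finset.card_lt_card
    rw [Finset.ssubset_iff_of_subset Finset.inter_subset_left]
    rw [Finset.not_subset] at hP2
    obtain ⟨x, hx, hx'⟩ := hP2
    exact ⟨x, hx, fun h => hx' (Finset.mem_inter.1 h).2⟩
  have hcard : (P ∩ X₁).card + (P ∩ X₂).card < P.card + κ := by
    have h1 : (P ∩ X₁) ∪ (P ∩ X₂) = P := by
      ext x
      simp only [Finset.mem_union, Finset.mem_inter]
      constructor
      · rintro (h | h) <;> exact h.1
      · intro h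
        rcases hcov x h with h' | h'
        · exact Or.inl ⟨h, h'⟩
        · exact Or.inr ⟨h, h'⟩
    have h2 := Finset.card_union_add_card_inter (P ∩ X₁) (P ∩ X₂)
    rw [h1] at h2
    have h3 : ((P ∩ X₁) ∩ (P ∩ X₂)).card ≤ (X₁ ∩ X₂).card := by
      apply Finset.card_le_card
      intro x hx
      simp only [Finset.mem_inter] at hx ⊢
      exact ⟨hx.1.2, hx.2.2⟩
    omega
  obtain ⟨b₁, s₁, hb₁, hs₁, hc₁, hd₁, he₁, hf₁⟩ := ih _ (hn ▸ hlt1) (P ∩ X₁)
    (Finset.inter_subset_left.trans hPX) rfl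
  obtain ⟨b₂, s₂, hb₂, hs₂, hc₂, hd₂, he₂, hf₂⟩ := ih _ (hn ▸ hlt2) (P ∩ X₂)
    (Finset.inter_subset_left.trans hPX) rfl
  refine ⟨b₁ ++ b₂, s₁ ++ s₂, ?_, ?_, ?_, ?_, ?_, ?_⟩
  · intro L hL
    rcases List.mem_append.1 hL with h | h
    · exact ⟨(hb₁ L h).1, (hb₁ L h).2.1.trans Finset.inter_subset_left, (hb₁ L h).2.2⟩
    · exact ⟨(hb₂ L h).1, (hb₂ L h).2.1.trans Finset.inter_subset_left, (hb₂ L h).2.2⟩
  · intro S hS
    rcases List.mem_append.1 hS with h | h
    · exact ⟨(hs₁ S h).1, (hs₁ S h).2.trans Finset.inter_subset_left⟩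
    · exact ⟨(hs₂ S h).1, (hs₂ S h).2.trans Finset.inter_subset_left⟩
  · intro x hx y hy hxy
    have hboth : (x ∈ X₁ ∧ y ∈ X₁) ∨ (x ∈ X₂ ∧ y ∈ X₂) := by
      by_contra hcon
      push Not at hcon
      by_cases hx1 : x ∈ X₁
      · have hy1 := hcon.1 hx1
        have hy2 := (hcov y hy).resolve_left hy1
        have hx2 : x ∉ X₂ := fun h => hcon.2 h hy2
        exact hxy ⟨X₁, X₂, hsep, hlt, Finset.mem_sdiff.2 ⟨hx1, hx2⟩,
          Finset.mem_sdiff.2 ⟨hy2, hy1⟩⟩
      · have hx2 := (hcov x hx).resolve_left hx1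
        have hy2 := hcon.2 hx2
        have hy1 := (hcov y hy).resolve_right hy2
        exact hxy (Sepd.symm' ⟨X₁, X₂, hsep, hlt, Finset.mem_sdiff.2 ⟨hy1, hy2⟩,
          Finset.mem_sdiff.2 ⟨hx2, hx1⟩⟩)
    rcases hboth with h | h
    · rcases hc₁ x (Finset.mem_inter.2 ⟨hx, h.1⟩) y (Finset.mem_inter.2 ⟨hy, h.2⟩) hxy with
        ⟨L, hL, h'⟩ | ⟨S, hS, h'⟩
      · exact Or.inl ⟨L, List.mem_append_left _ hL, h'⟩
      · exact Or.inr ⟨S, List.mem_append_left _ hS, h'⟩
    · rcases hc₂ x (Finset.mem_inter.2 ⟨hx, h.1⟩) y (Finset.mem_inter.2 ⟨hy, h.2⟩) hxy with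
        ⟨L, hL, h'⟩ | ⟨S, hS, h'⟩
      · exact Or.inl ⟨L, List.mem_append_right _ hL, h'⟩
      · exact Or.inr ⟨S, List.mem_append_right _ hS, h'⟩
  · intro l hl hne
    obtain ⟨l₁, l₂, rfl, h1, h2⟩ := List.sublist_append_iff.1 hl
    by_cases hl1 : l₁ = []
    · subst hl1
      simpa using hd₂ l₂ h2 (by simpa using hne)
    by_cases hl2 : l₂ = []
    · subst hl2
      simpa using hd₁ l₁ h1 hl1
    have e1 := hd₁ l₁ h1 hl1
    have e2 := hd₂ l₂ h2 hl2
    have e3 := Finset.card_union_add_card_inter (U l₁) (U l₂)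
    have e4 : (U l₁ ∩ U l₂).card ≤ κ := by
      refine (Finset.card_le_card (t := X₁ ∩ X₂) ?_).trans hlt.le
      intro x hx
      rw [Finset.mem_inter, mem_U, mem_U] at hx
      obtain ⟨⟨S, hS, hxS⟩, ⟨T, hT, hxT⟩⟩ := hx
      exact Finset.mem_inter.2 ⟨(Finset.mem_inter.1 ((hb₁ S (h1.subset hS)).2.1 hxS)).2,
        (Finset.mem_inter.1 ((hb₂ T (h2.subset hT)).2.1 hxT)).2⟩
    rw [U_append, List.length_append, Nat.mul_add]
    have e5 : sz (l₁ ++ l₂) = sz l₁ + sz l₂ := by simp [sz]
    rw [e5]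
    omega
  · intro _
    rw [List.length_append]
    rcases Nat.lt_or_ge κ (P ∩ X₁).card with h1 | h1 <;>
      rcases Nat.lt_or_ge κ (P ∩ X₂).card with h2 | h2
    · have a := he₁ h1
      have b := he₂ h2
      omega
    · have a := he₁ h1
      have b := hf₂ h2
      omega
    · have a := hf₁ h1
      have b := he₂ h2
      omega
    · have a := hf₁ h1
      have b := hf₂ h2
      omega
  · intro h; omega

/-- summation by parts -/
theorem abel (κ : ℕ) (a n : ℕ → ℕ) (m : ℕ) (hn : ∀ i ≤ m, ∑ j ∈ range i, n j ≤ κ * i) :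
    ∀ c : ℕ, (∀ j < m, c ≤ a j) → (∀ i j, i ≤ j → j < m → a j ≤ a i) →
    ∑ j ∈ range m, n j * a j + (κ * m - ∑ j ∈ range m, n j) * c ≤
      κ * ∑ j ∈ range m, a j := by
  induction m with
  | zero => intro c _ _; simp
  | succ m ih =>
    intro c hc ha
    have h1 := ih (fun i hi => hn i (by omega)) (a m) (fun j hj => ha j m (by omega) (by omega))
      (fun i j hij hj => ha i j hij (by omega))
    have h2 := hn m (by omega)
    have h3 := hn (m + 1) le_rfl
    rw [Finset.sum_range_succ] at h3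
    rw [Finset.sum_range_succ, Finset.sum_range_succ, Finset.sum_range_succ]
    obtain ⟨D, hD⟩ := Nat.exists_eq_add_of_le h2
    obtain ⟨D', hD'⟩ := Nat.exists_eq_add_of_le h3
    have hc' := hc m (by omega)
    rw [hD, Nat.add_sub_cancel_left] at h1
    rw [hD', Nat.add_sub_cancel_left]
    have h4 : D' + n m = D + κ := by
      have : κ * (m + 1) = κ * m + κ := by ring
      omega
    have h5 : D' * c ≤ D' * a m := Nat.mul_le_mul_left _ hc'
    have h6 : D' * a m + n m * a m = D * a m + κ * a m := by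
      rw [← Nat.add_mul, h4, Nat.add_mul]
    have h7 : κ * (∑ x ∈ range m, a x + a m) = κ * ∑ x ∈ range m, a x + κ * a m := by ring
    rw [h7]
    omega

theorem sz_perm {l l' : List (Finset V)} (h : l.Perm l') : sz l = sz l' :=
  (h.map _).sum_eq

theorem sz_append (l l' : List (Finset V)) : sz (l ++ l') = sz l + sz l' := by simp [sz]

theorem mul_len_le {κ : ℕ} {l : List (Finset V)} (h : ∀ L ∈ l, κ < L.card) :
    (κ + 1) * l.length ≤ sz l := by
  induction l with
  | nil => simp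
  | cons L l ih =>
    have h1 := h L List.mem_cons_self
    have h2 := ih (fun L' hL' => h L' (List.mem_cons_of_mem _ hL'))
    have h3 : sz (L :: l) = L.card + sz l := by simp [sz]
    rw [h3, List.length_cons, Nat.mul_add]
    omega

theorem main [Fintype V] (κ : ℕ) (Q : SimpleGraph V) (X : Finset V) (hX : X.Nonempty) :
    ∃ (n : ℕ) (P M : Fin n → Finset V) (Exc : Finset (V × V)),
      (∀ i, M i ⊆ P i ∧ P i ⊆ X) ∧
      (∀ i X₁ X₂, IsSep Q X X₁ X₂ → (X₁ ∩ X₂).card < κ → P i ⊆ X₁ ∨ P i ⊆ X₂) ∧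
      (∀ i j, i ≠ j → Disjoint (M i) (M j)) ∧
      Exc.card ≤ (3 * κ ^ 2 + 2 * κ * (κ + 1)) * X.card ∧ ∑ i, (P i).card ≤ (κ + 1) * X.card ∧
      ∀ x ∈ X, ∀ y ∈ X, x ≠ y → ¬ Sepd κ Q X x y → (x, y) ∉ Exc → ∃ i, x ∈ M i ∧ y ∈ M i := by
  obtain ⟨bigs, smalls, hb, hs, hc, hd, he, hf⟩ := exists_leaves κ Q X _ X Finset.Subset.rfl rfl
  let r : Finset V → Finset V → Prop := fun A B => B.card ≤ A.card
  have i1 : Std.Total r := ⟨fun a b => Nat.le_total _ _⟩
  have i2 : IsTrans (Finset V) r := ⟨fun a b c h1 h2 => Nat.le_trans h2 h1⟩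
  obtain ⟨st, hst, hsp⟩ : ∃ st : List (Finset V), st.Pairwise r ∧ st.Perm bigs :=
    ⟨bigs.insertionSort r, List.pairwise_insertionSort r bigs, List.perm_insertionSort r bigs⟩
  set n := st.length with hn
  let P' : ℕ → Finset V := fun i => st.getD i ∅
  have hP' : ∀ i (hi : i < n), P' i = st[i] := by
    intro i hi
    simp only [P', List.getD_eq_getElem?_getD, List.getElem?_eq_getElem hi, Option.getD_some]
  have hP'mem : ∀ i < n, P' i ∈ bigs := by
    intro i hi
    rw [hP' i hi]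
    exact hsp.mem_iff.1 (List.getElem_mem hi)
  let U' : ℕ → Finset V := fun i => U (st.take i)
  have hU' : ∀ i < n, U' (i + 1) = U' i ∪ P' i := by
    intro i hi
    simp only [U']
    rw [List.take_succ_eq_append_getElem hi, U_append, hP' i hi]
    congr 1
    ext x
    simp [mem_U]
  have hU'mono : ∀ i j, i ≤ j → j ≤ n → U' i ⊆ U' j := by
    intro i j hij hj
    induction j, hij using Nat.le_induction with
    | base => exact Finset.Subset.rfl
    | succ j _ ih =>
      rw [hU' j (by omega)]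
      exact (ih (by omega)).trans Finset.subset_union_left
  have hsz : ∀ i ≤ n, sz (st.take i) = ∑ j ∈ range i, (P' j).card := by
    intro i hi
    induction i with
    | zero => simp [sz]
    | succ i ih =>
      rw [List.take_succ_eq_append_getElem (by omega), Finset.sum_range_succ, ← ih (by omega),
        hP' i (by omega), sz_append]
      rfl
  let nn : ℕ → ℕ := fun i => (P' i ∩ U' i).card
  have hnn : ∀ i ≤ n, ∑ j ∈ range i, nn j + (U' i).card = ∑ j ∈ range i, (P' j).card := by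
    intro i hi
    induction i with
    | zero => simp [U', U]
    | succ i ih =>
      rw [Finset.sum_range_succ, Finset.sum_range_succ, ← ih (by omega), hU' i (by omega)]
      have h1 := Finset.card_union_add_card_inter (U' i) (P' i)
      rw [Finset.inter_comm] at h1
      simp only [nn]
      omega
  have hpre : ∀ i ≤ n, ∑ j ∈ range i, nn j ≤ κ * i := by
    intro i hi
    by_cases h0 : i = 0
    · subst h0; simp
    have h1 : (st.take i).Subperm bigs := ((List.take_sublist i st).subperm).trans hsp.subperm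
    obtain ⟨l, hl, hlb⟩ := h1
    have hlen : l.length = i := by
      rw [hl.length_eq, List.length_take]; omega
    have h2 := hd l hlb (by
      intro h
      rw [h] at hlen
      simp at hlen
      omega)
    rw [sz_perm hl, U_perm hl, hlen, hsz i hi] at h2
    have h3 := hnn i hi
    have h4 : (U (st.take i)).card = (U' i).card := rfl
    omega
  have hanti : ∀ i j, i ≤ j → j < n → (P' j).card ≤ (P' i).card := by
    intro i j hij hj
    rcases Nat.eq_or_lt_of_le hij with rfl | hlt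
    · exact le_rfl
    rw [hP' i (by omega), hP' j hj]
    exact List.pairwise_iff_getElem.1 hst i j (by omega) hj hlt
  have hab := abel κ (fun i => (P' i).card) nn n hpre 0 (fun j _ => Nat.zero_le _) hanti
  rw [Nat.mul_zero, Nat.add_zero] at hab
  have hsum : ∑ j ∈ range n, (P' j).card ≤ (κ + 1) * X.card := by
    rw [← hsz n le_rfl, hn, List.take_length, sz_perm hsp]
    by_cases hnil : bigs = []
    · rw [hnil]; simp [sz]
    have h1 := hd bigs (List.Sublist.refl _) hnil
    have h2 := mul_len_le (fun L hL => (hb L hL).1)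
    have h3 : (U bigs).card ≤ X.card := by
      apply Finset.card_le_card
      intro x hx
      obtain ⟨L, hL, hxL⟩ := mem_U.1 hx
      exact (hb L hL).2.1 hxL
    have h4 : (κ + 1) * bigs.length = κ * bigs.length + bigs.length := by ring
    have h5 : bigs.length ≤ X.card := by omega
    have h6 : κ * bigs.length ≤ κ * X.card := Nat.mul_le_mul_left _ h5
    have h7 : (κ + 1) * X.card = κ * X.card + X.card := by ring
    omega
  have hsumF : ∑ i : Fin n, (P' i).card = ∑ j ∈ range n, (P' j).card :=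
    Fin.sum_univ_eq_sum_range (fun j => (P' j).card) n
  let M : Fin n → Finset V := fun i => P' i \ U' i
  let E₁ : Finset (V × V) := smalls.toFinset.biUnion fun S => S ×ˢ S
  let E₂ : Finset (V × V) := univ.biUnion fun i : Fin n =>
    (P' i ×ˢ P' i).filter fun p => ¬ (p.1 ∈ M i ∧ p.2 ∈ M i)
  refine ⟨n, fun i => P' i, M, E₁ ∪ E₂, ?_, ?_, ?_, ?_, ?_, ?_⟩
  · intro i
    exact ⟨Finset.sdiff_subset, (hb _ (hP'mem i i.2)).2.1⟩
  · intro i
    exact (hb _ (hP'mem i i.2)).2.2
  · have key : ∀ i j : Fin n, i < j → Disjoint (M i) (M j) := by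
      intro i j hij
      rw [Finset.disjoint_left]
      intro x hx hx'
      have h1 : x ∈ U' (i + 1) := by
        rw [hU' i i.2]
        exact Finset.mem_union_right _ (Finset.mem_sdiff.1 hx).1
      exact (Finset.mem_sdiff.1 hx').2 (hU'mono _ _ hij j.2.le h1)
    intro i j hij
    rcases lt_or_gt_of_ne hij with h | h
    · exact key i j h
    · exact (key j i h).symm
  · have hE1 : E₁.card ≤ 3 * κ ^ 2 * X.card := by
      have h1 : E₁.card ≤ smalls.toFinset.card * κ ^ 2 := by
        refine Finset.card_biUnion_le_card_mul _ _ _ ?_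
        intro S hS
        rw [List.mem_toFinset] at hS
        rw [Finset.card_product, pow_two]
        exact Nat.mul_le_mul (hs S hS).1 (hs S hS).1
      have h2 : smalls.toFinset.card ≤ 3 * X.card := by
        refine (List.toFinset_card_le smalls).trans ?_
        have hXpos := hX.card_pos
        rcases Nat.lt_or_ge κ X.card with h | h
        · have := he h; omega
        · have := hf h; omega
      calc E₁.card ≤ smalls.toFinset.card * κ ^ 2 := h1
        _ ≤ (3 * X.card) * κ ^ 2 := Nat.mul_le_mul_right _ h2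
        _ = 3 * κ ^ 2 * X.card := by ring
    have hE2 : E₂.card ≤ 2 * κ * (κ + 1) * X.card := by
      have h1 : E₂.card ≤ ∑ i : Fin n, 2 * (nn i * (P' i).card) := by
        refine Finset.card_biUnion_le.trans (Finset.sum_le_sum ?_)
        intro i _
        have h2 : ((P' i ×ˢ P' i).filter fun p => ¬ (p.1 ∈ M i ∧ p.2 ∈ M i)) ⊆
            ((P' i ∩ U' i) ×ˢ P' i) ∪ (P' i ×ˢ (P' i ∩ U' i)) := by
          intro p hp
          simp only [M, Finset.mem_filter, Finset.mem_product, Finset.mem_sdiff] at hp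
          simp only [Finset.mem_union, Finset.mem_product, Finset.mem_inter]
          tauto
        refine (Finset.card_le_card h2).trans ((Finset.card_union_le _ _).trans ?_)
        rw [Finset.card_product, Finset.card_product]
        simp only [nn]
        have : (P' i).card * (P' i ∩ U' i).card = (P' i ∩ U' i).card * (P' i).card :=
          Nat.mul_comm _ _
        omega
      have h3 : ∑ i : Fin n, 2 * (nn i * (P' i).card) =
          2 * ∑ j ∈ range n, nn j * (P' j).card := by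
        rw [← Finset.mul_sum]
        congr 1
        exact Fin.sum_univ_eq_sum_range (fun j => nn j * (P' j).card) n
      rw [h3] at h1
      calc E₂.card ≤ 2 * ∑ j ∈ range n, nn j * (P' j).card := h1
        _ ≤ 2 * (κ * ∑ j ∈ range n, (P' j).card) := Nat.mul_le_mul_left _ hab
        _ ≤ 2 * (κ * ((κ + 1) * X.card)) :=
          Nat.mul_le_mul_left _ (Nat.mul_le_mul_left _ hsum)
        _ = 2 * κ * (κ + 1) * X.card := by ring
    refine (Finset.card_union_le _ _).trans ?_
    rw [Nat.add_mul]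
    exact Nat.add_le_add hE1 hE2
  · rw [hsumF]
    exact hsum
  · intro x hx y hy _ hsepd hexc
    rw [Finset.mem_union] at hexc
    push Not at hexc
    rcases hc x hx y hy hsepd with ⟨L, hL, hxL, hyL⟩ | ⟨S, hS, hxS, hyS⟩
    · obtain ⟨i, hi, hiL⟩ := List.mem_iff_getElem.1 (hsp.mem_iff.2 hL)
      have hPL : P' i = L := (hP' i hi).trans hiL
      refine ⟨⟨i, hi⟩, ?_⟩
      by_contra hcon
      apply hexc.2
      rw [Finset.mem_biUnion]
      refine ⟨⟨i, hi⟩, Finset.mem_univ _, ?_⟩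
      rw [Finset.mem_filter, Finset.mem_product]
      refine ⟨⟨?_, ?_⟩, hcon⟩
      · change x ∈ P' i
        rw [hPL]; exact hxL
      · change y ∈ P' i
        rw [hPL]; exact hyL
    · exfalso
      apply hexc.1
      rw [Finset.mem_biUnion]
      exact ⟨S, List.mem_toFinset.2 hS, Finset.mem_product.2 ⟨hxS, hyS⟩⟩

end Leaf

/-- PM-8: the leaf lemma. -/
theorem leaf_lemma (κ : ℕ) : ∃ C : ℕ, ∀ (V : Type) [Fintype V] (Q : SimpleGraph V) (X : Finset V),
    ∃ (n : ℕ) (P M : Fin n → Finset V) (Exc : Finset (V × V)),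
      (∀ i, M i ⊆ P i ∧ P i ⊆ X) ∧
      (∀ i X₁ X₂, IsSep Q X X₁ X₂ → (X₁ ∩ X₂).card < κ → P i ⊆ X₁ ∨ P i ⊆ X₂) ∧
      (∀ i j, i ≠ j → Disjoint (M i) (M j)) ∧
      Exc.card ≤ C * X.card ∧ ∑ i, (P i).card ≤ C * X.card ∧
      ∀ x ∈ X, ∀ y ∈ X, x ≠ y → ¬ Sepd κ Q X x y → (x, y) ∉ Exc → ∃ i, x ∈ M i ∧ y ∈ M i := by
  refine ⟨3 * κ ^ 2 + 2 * κ * (κ + 1) + (κ + 1), ?_⟩
  intro V _ Q X
  rcases X.eq_empty_or_nonempty with rfl | hX
  · refine ⟨0, fun i => i.elim0, fun i => i.elim0, ∅, fun i => i.elim0, fun i => i.elim0,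
      fun i => i.elim0, by simp, by simp, ?_⟩
    intro x hx
    exact absurd hx (Finset.notMem_empty x)
  · obtain ⟨n, P, M, Exc, h1, h2, h3, h4, h5, h6⟩ := Leaf.main κ Q X hX
    refine ⟨n, P, M, Exc, h1, h2, h3, h4.trans ?_, h5.trans ?_, h6⟩
    · exact Nat.mul_le_mul_right _ (Nat.le_add_right _ _)
    · exact Nat.mul_le_mul_right _ (Nat.le_add_left _ _)

end Pool.Agent.Helper35.PM
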