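import Pool.Agent.Helper35.PM.Defs2

set_option autoImplicit false

/-!
# PM-9: Menger's theorem with connected sets
-/

namespace Pool.Agent.Helper35.PM

open Finset
open scoped Classical

namespace Conn

variable {V : Type} {Q Q' : SimpleGraph V}

theorem singleton (Q : SimpleGraph V) (a : V) : ConnIn Q {a} := by
  refine ⟨Finset.singleton_nonempty a, ?_⟩
  intro T hT hne hT'
  exact absurd ((Finset.subset_singleton_iff.1 hT).resolve_left hne.ne_empty) hT'

theorem mono (h : ∀ x y, Q'.Adj x y → Q.Adj x y) {S : Finset V} (hS : ConnIn Q' S) :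
    ConnIn Q S := by
  refine ⟨hS.1, ?_⟩
  intro T hT hne hT'
  obtain ⟨x, hx, y, hy, hxy⟩ := hS.2 T hT hne hT'
  exact ⟨x, hx, y, hy, h x y hxy⟩

theorem union {S T : Finset V} (hS : ConnIn Q S) (hT : ConnIn Q T)
    (h : ∃ x ∈ S, ∃ y ∈ T, x = y ∨ Q.Adj x y) : ConnIn Q (S ∪ T) := by
  refine ⟨hS.1.mono Finset.subset_union_left, ?_⟩
  intro U hU hne hU'
  by_cases h1 : (U ∩ S).Nonempty ∧ U ∩ S ≠ S
  · obtain ⟨x, hx, y, hy, hxy⟩ := hS.2 (U ∩ S) Finset.inter_subset_right h1.1 h1.2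
    rw [Finset.mem_inter] at hx
    rw [Finset.mem_sdiff, Finset.mem_inter] at hy
    exact ⟨x, hx.1, y, Finset.mem_sdiff.2 ⟨Finset.mem_union_left _ hy.1,
      fun hyU => hy.2 ⟨hyU, hy.1⟩⟩, hxy⟩
  by_cases h2 : (U ∩ T).Nonempty ∧ U ∩ T ≠ T
  · obtain ⟨x, hx, y, hy, hxy⟩ := hT.2 (U ∩ T) Finset.inter_subset_right h2.1 h2.2
    rw [Finset.mem_inter] at hx
    rw [Finset.mem_sdiff, Finset.mem_inter] at hy
    exact ⟨x, hx.1, y, Finset.mem_sdiff.2 ⟨Finset.mem_union_right _ hy.1,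
      fun hyU => hy.2 ⟨hyU, hy.1⟩⟩, hxy⟩
  have h1' : ¬ (U ∩ S).Nonempty ∨ S ⊆ U := by
    by_cases h3 : (U ∩ S).Nonempty
    · right
      by_contra h4
      exact h1 ⟨h3, fun h5 => h4 (h5 ▸ Finset.inter_subset_left)⟩
    · exact Or.inl h3
  have h2' : ¬ (U ∩ T).Nonempty ∨ T ⊆ U := by
    by_cases h3 : (U ∩ T).Nonempty
    · right
      by_contra h4
      exact h2 ⟨h3, fun h5 => h4 (h5 ▸ Finset.inter_subset_left)⟩
    · exact Or.inl h3
  obtain ⟨x, hx, y, hy, hxy⟩ := h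
  rcases h1' with h1' | h1' <;> rcases h2' with h2' | h2'
  · exfalso
    obtain ⟨u, hu⟩ := hne
    rcases Finset.mem_union.1 (hU hu) with hu' | hu'
    · exact h1' ⟨u, Finset.mem_inter.2 ⟨hu, hu'⟩⟩
    · exact h2' ⟨u, Finset.mem_inter.2 ⟨hu, hu'⟩⟩
  · -- U misses S, contains T
    have hxU : x ∉ U := fun hxU => h1' ⟨x, Finset.mem_inter.2 ⟨hxU, hx⟩⟩
    rcases hxy with rfl | hxy
    · exact absurd (h2' hy) hxU
    · exact ⟨y, h2' hy, x, Finset.mem_sdiff.2 ⟨Finset.mem_union_left _ hx, hxU⟩, hxy.symm⟩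
  · have hyU : y ∉ U := fun hyU => h2' ⟨y, Finset.mem_inter.2 ⟨hyU, hy⟩⟩
    rcases hxy with rfl | hxy
    · exact absurd (h1' hx) hyU
    · exact ⟨x, h1' hx, y, Finset.mem_sdiff.2 ⟨Finset.mem_union_right _ hy, hyU⟩, hxy⟩
  · exact absurd (Finset.Subset.antisymm hU (Finset.union_subset h1' h2')) hU'

theorem subset_of {S X : Finset V} (hS : ConnIn Q S) (hQ : ∀ x y, Q.Adj x y → y ∈ X)
    (a : V) (ha : a ∈ S) (haX : a ∈ X) : S ⊆ X := by
  by_contra h
  have h1 : S ∩ X ≠ S := fun h2 => h (h2 ▸ Finset.inter_subset_right)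
  obtain ⟨x, hx, y, hy, hxy⟩ := hS.2 (S ∩ X) Finset.inter_subset_left
    ⟨a, Finset.mem_inter.2 ⟨ha, haX⟩⟩ h1
  rw [Finset.mem_sdiff, Finset.mem_inter] at hy
  exact hy.2 ⟨hy.1, hQ x y hxy⟩

end Conn

/-- disjoint sets `C a`, `a ∈ A`, that meet `B`, `|A| = |B|`: every set contains exactly one
element of `B` -/
theorem exists_ends {V : Type} {A B : Finset V} (hAB : A.card = B.card) (C : V → Finset V)
    (hC : ∀ a ∈ A, (C a ∩ B).Nonempty)
    (hd : ∀ a ∈ A, ∀ a' ∈ A, a ≠ a' → Disjoint (C a) (C a')) :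
    ∃ g : V → V, (∀ a ∈ A, g a ∈ C a ∧ g a ∈ B) ∧ (∀ a ∈ A, ∀ a' ∈ A, g a = g a' → a = a') ∧
      (∀ a ∈ A, ∀ b ∈ B, b ∈ C a → b = g a) ∧ ∀ b ∈ B, ∃ a ∈ A, g a = b := by
  have h1 : ∀ a : V, ∃ b : V, a ∈ A → b ∈ C a ∧ b ∈ B := by
    intro a
    by_cases ha : a ∈ A
    · obtain ⟨b, hb⟩ := hC a ha
      rw [Finset.mem_inter] at hb
      exact ⟨b, fun _ => hb⟩
    · exact ⟨a, fun h => absurd h ha⟩
  choose g hg using h1
  have hinj : ∀ a ∈ A, ∀ a' ∈ A, g a = g a' → a = a' := by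
    intro a ha a' ha' h
    by_contra hne
    exact Finset.disjoint_left.1 (hd a ha a' ha' hne) (hg a ha).1 (h ▸ (hg a' ha').1)
  have himg : A.image g = B := by
    apply Finset.eq_of_subset_of_card_le
    · intro b hb
      obtain ⟨a, ha, rfl⟩ := Finset.mem_image.1 hb
      exact (hg a ha).2
    · rw [Finset.card_image_of_injOn (fun a ha a' ha' h => hinj a ha a' ha' h), hAB]
  have hsurj : ∀ b ∈ B, ∃ a ∈ A, g a = b := by
    intro b hb
    rw [← himg, Finset.mem_image] at hb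
    exact hb
  refine ⟨g, fun a ha => hg a ha, hinj, ?_, hsurj⟩
  intro a ha b hb hbC
  obtain ⟨a', ha', rfl⟩ := hsurj b hb
  by_contra hne
  have hne' : a ≠ a' := fun h => hne (by rw [h])
  exact Finset.disjoint_left.1 (hd a ha a' ha' hne') hbC (hg a' ha').1

/-- number of ordered adjacent pairs -/
noncomputable def eN {V : Type} [Fintype V] (Q : SimpleGraph V) : ℕ :=
  (univ.filter fun p : V × V => Q.Adj p.1 p.2).card

theorem eN_lt {V : Type} [Fintype V] {Q Q' : SimpleGraph V} (h : ∀ x y, Q'.Adj x y → Q.Adj x y)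
    (x y : V) (hxy : Q.Adj x y) (hxy' : ¬ Q'.Adj x y) : eN Q' < eN Q := by
  apply Finset.card_lt_card
  rw [Finset.ssubset_iff_of_subset]
  · exact ⟨(x, y), by simpa using hxy, by simpa using hxy'⟩
  · intro p hp
    rw [Finset.mem_filter] at hp ⊢
    exact ⟨hp.1, h _ _ hp.2⟩

/-- the edges inside a set -/
def inside {V : Type} (Q : SimpleGraph V) (X : Finset V) : SimpleGraph V where
  Adj x y := Q.Adj x y ∧ x ∈ X ∧ y ∈ X
  symm := ⟨fun _ _ h => ⟨h.1.symm, h.2.2, h.2.1⟩⟩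
  loopless := ⟨fun x h => Q.loopless.irrefl x h.1⟩

theorem menger_aux {V : Type} [Fintype V] (n : ℕ) : ∀ (Q : SimpleGraph V), eN Q = n →
    ∀ (A B : Finset V) (k : ℕ), A.card = k → B.card = k →
    (∀ X₁ X₂ : Finset V, IsSep Q univ X₁ X₂ → A ⊆ X₁ → B ⊆ X₂ → k ≤ (X₁ ∩ X₂).card) →
    ∃ C : V → Finset V, (∀ a ∈ A, a ∈ C a ∧ ConnIn Q (C a) ∧ (C a ∩ B).Nonempty) ∧
      ∀ a ∈ A, ∀ a' ∈ A, a ≠ a' → Disjoint (C a) (C a') := by
  induction n using Nat.strong_induction_on with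
  | _ n ih =>
  intro Q hQn A B k hA hB h
  by_cases hE : ∀ x y, ¬ Q.Adj x y
  · -- no edges
    have h1 := h A ((univ \ A) ∪ B) ⟨by
      ext v; simp only [Finset.mem_union, Finset.mem_sdiff, Finset.mem_univ, true_and, iff_true]
      tauto, fun x _ y _ => hE x y⟩ Finset.Subset.rfl Finset.subset_union_right
    have h2 : A ∩ ((univ \ A) ∪ B) = A ∩ B := by
      ext v; simp only [Finset.mem_inter, Finset.mem_union, Finset.mem_sdiff, Finset.mem_univ,
        true_and]; tauto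
    rw [h2] at h1
    have h3 : A ∩ B = A :=
      Finset.eq_of_subset_of_card_le Finset.inter_subset_left (by rw [hA]; exact h1)
    refine ⟨fun a => {a}, ?_, ?_⟩
    · intro a ha
      refine ⟨Finset.mem_singleton_self a, Conn.singleton Q a, ⟨a, ?_⟩⟩
      rw [← h3, Finset.mem_inter] at ha
      exact Finset.mem_inter.2 ⟨Finset.mem_singleton_self a, ha.2⟩
    · intro a _ a' _ hne
      exact Finset.disjoint_singleton.2 hne
  push Not at hE
  obtain ⟨x0, y0, hxy0⟩ := hE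
  let Q' : SimpleGraph V := Q.deleteEdges {s(x0, y0)}
  have hQ' : ∀ x y, Q'.Adj x y ↔ Q.Adj x y ∧ ¬ s(x, y) = s(x0, y0) := by
    intro x y
    rw [SimpleGraph.deleteEdges_adj]
    rfl
  by_cases hQ'h : ∀ X₁ X₂ : Finset V, IsSep Q' univ X₁ X₂ → A ⊆ X₁ → B ⊆ X₂ →
      k ≤ (X₁ ∩ X₂).card
  · have hlt : eN Q' < n := by
      rw [← hQn]
      exact eN_lt (fun x y hxy => ((hQ' x y).1 hxy).1) x0 y0 hxy0
        (fun hc => ((hQ' x0 y0).1 hc).2 rfl)
    obtain ⟨C, hC, hd⟩ := ih _ hlt Q' rfl A B k hA hB hQ'h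
    exact ⟨C, fun a ha => ⟨(hC a ha).1, Conn.mono (fun x y hxy => ((hQ' x y).1 hxy).1)
      (hC a ha).2.1, (hC a ha).2.2⟩, hd⟩
  push Not at hQ'h
  obtain ⟨X₁, X₂, hsep, hAX, hBX, hlt⟩ := hQ'h
  have huniv : ∀ v, v ∈ X₁ ∨ v ∈ X₂ := by
    intro v
    rw [← Finset.mem_union, hsep.1]
    exact Finset.mem_univ v
  -- not a separation of `Q`
  obtain ⟨x, hx, y, hy, hxy⟩ : ∃ x ∈ X₁ \ X₂, ∃ y ∈ X₂ \ X₁, Q.Adj x y := by
    by_contra hcon
    push Not at hcon
    have := h X₁ X₂ ⟨hsep.1, hcon⟩ hAX hBX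
    omega
  have hcross : ∀ u ∈ X₁ \ X₂, ∀ v ∈ X₂ \ X₁, Q.Adj u v → u = x ∧ v = y := by
    have h1 : ∀ u ∈ X₁ \ X₂, ∀ v ∈ X₂ \ X₁, Q.Adj u v → s(u, v) = s(x0, y0) := by
      intro u hu v hv huv
      by_contra hne
      exact hsep.2 u hu v hv ((hQ' u v).2 ⟨huv, hne⟩)
    intro u hu v hv huv
    have h2 := (h1 u hu v hv huv).trans (h1 x hx y hy hxy).symm
    rcases Sym2.eq_iff.1 h2 with h3 | h3
    · exact h3
    · exfalso
      rw [Finset.mem_sdiff] at hu hy
      exact hy.2 (h3.1 ▸ hu.1)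
  rw [Finset.mem_sdiff] at hx hy
  set S := X₁ ∩ X₂ with hS
  have hxS : x ∉ S := fun hc => hx.2 (Finset.mem_inter.1 hc).2
  have hyS : y ∉ S := fun hc => hy.2 (Finset.mem_inter.1 hc).1
  have hcardS : S.card + 1 = k := by
    have h1 : IsSep Q univ X₁ (insert x X₂) := by
      refine ⟨?_, ?_⟩
      · ext v
        simp only [Finset.mem_union, Finset.mem_insert, Finset.mem_univ, iff_true]
        rcases huniv v with h | h <;> tauto
      · intro u hu v hv huv
        rw [Finset.mem_sdiff, Finset.mem_insert] at hu hv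
        push Not at hu
        have hv1 : v ∈ X₂ := by
          rcases hv.1 with rfl | hv1
          · exact absurd hx.1 hv.2
          · exact hv1
        exact hu.2.1 (hcross u (Finset.mem_sdiff.2 ⟨hu.1, hu.2.2⟩) v
          (Finset.mem_sdiff.2 ⟨hv1, hv.2⟩) huv).1
    have h2 := h X₁ (insert x X₂) h1 hAX (hBX.trans (Finset.subset_insert _ _))
    have h3 : X₁ ∩ insert x X₂ = insert x S := by
      ext v
      simp only [hS, Finset.mem_inter, Finset.mem_insert]
      constructor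
      · rintro ⟨h4, h5 | h5⟩
        · exact Or.inl h5
        · exact Or.inr ⟨h4, h5⟩
      · rintro (rfl | h4)
        · exact ⟨hx.1, Or.inl rfl⟩
        · exact ⟨h4.1, Or.inr h4.2⟩
    rw [h3, Finset.card_insert_of_notMem hxS] at h2
    omega
  have hcx : (insert x S).card = k := by rw [Finset.card_insert_of_notMem hxS, hcardS]
  have hcy : (insert y S).card = k := by rw [Finset.card_insert_of_notMem hyS, hcardS]
  -- the first half
  obtain ⟨C₁, hC₁, hd₁⟩ := ih (eN (inside Q X₁)) (by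
    rw [← hQn]
    exact eN_lt (fun u v huv => huv.1) x y hxy (fun hc => hy.2 hc.2.2))
    (inside Q X₁) rfl A (insert x S) k hA hcx (by
      intro Y₁ Y₂ hY hAY hSY
      have hYu : ∀ v, v ∈ Y₁ ∨ v ∈ Y₂ := by
        intro v
        rw [← Finset.mem_union, hY.1]
        exact Finset.mem_univ v
      have h1 : IsSep Q univ (Y₁ ∩ X₁) (Y₂ ∪ X₂) := by
        refine ⟨?_, ?_⟩
        · ext v
          simp only [Finset.mem_union, Finset.mem_inter, Finset.mem_univ, iff_true]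
          rcases huniv v with h | h <;> rcases hYu v with h' | h' <;> tauto
        · intro u hu v hv huv
          simp only [Finset.mem_sdiff, Finset.mem_inter, Finset.mem_union] at hu hv
          push Not at hu hv
          by_cases hvX : v ∈ X₁
          · have hvY1 : v ∉ Y₁ := fun hc => hv.2 hc hvX
            have hvY2 : v ∈ Y₂ := (hYu v).resolve_left hvY1
            exact hY.2 u (Finset.mem_sdiff.2 ⟨hu.1.1, hu.2.1⟩) v
              (Finset.mem_sdiff.2 ⟨hvY2, hvY1⟩) ⟨huv, hu.1.2, hvX⟩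
          · have hvX2 : v ∈ X₂ := (huniv v).resolve_left hvX
            have h2 := hcross u (Finset.mem_sdiff.2 ⟨hu.1.2, hu.2.2⟩) v
              (Finset.mem_sdiff.2 ⟨hvX2, hvX⟩) huv
            exact hu.2.1 (h2.1 ▸ hSY (Finset.mem_insert_self x S))
      refine (h _ _ h1 (Finset.subset_inter hAY hAX)
        (hBX.trans Finset.subset_union_right)).trans (Finset.card_le_card ?_)
      intro v hv
      simp only [Finset.mem_inter, Finset.mem_union] at hv ⊢
      refine ⟨hv.1.1, ?_⟩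
      rcases hv.2 with h2 | h2
      · exact h2
      · exact hSY (Finset.mem_insert_of_mem (Finset.mem_inter.2 ⟨hv.1.2, h2⟩)))
  -- the second half
  obtain ⟨C₂, hC₂, hd₂⟩ := ih (eN (inside Q X₂)) (by
    rw [← hQn]
    exact eN_lt (fun u v huv => huv.1) x y hxy (fun hc => hx.2 hc.2.1))
    (inside Q X₂) rfl (insert y S) B k hcy hB (by
      intro Y₁ Y₂ hY hSY hBY
      have hYu : ∀ v, v ∈ Y₁ ∨ v ∈ Y₂ := by
        intro v
        rw [← Finset.mem_union, hY.1]
        exact Finset.mem_univ v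
      have h1 : IsSep Q univ (Y₁ ∪ X₁) (Y₂ ∩ X₂) := by
        refine ⟨?_, ?_⟩
        · ext v
          simp only [Finset.mem_union, Finset.mem_inter, Finset.mem_univ, iff_true]
          rcases huniv v with h | h <;> rcases hYu v with h' | h' <;> tauto
        · intro u hu v hv huv
          simp only [Finset.mem_sdiff, Finset.mem_inter, Finset.mem_union] at hu hv
          push Not at hu hv
          by_cases huX : u ∈ X₂
          · have huY2 : u ∉ Y₂ := fun hc => hu.2 hc huX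
            have huY1 : u ∈ Y₁ := (hYu u).resolve_right huY2
            exact hY.2 u (Finset.mem_sdiff.2 ⟨huY1, huY2⟩) v
              (Finset.mem_sdiff.2 ⟨hv.1.1, hv.2.1⟩) ⟨huv, huX, hv.1.2⟩
          · have huX1 : u ∈ X₁ := (huniv u).resolve_right huX
            have h2 := hcross u (Finset.mem_sdiff.2 ⟨huX1, huX⟩) v
              (Finset.mem_sdiff.2 ⟨hv.1.2, hv.2.2⟩) huv
            exact hv.2.1 (h2.2 ▸ hSY (Finset.mem_insert_self y S))
      refine (h _ _ h1 (hAX.trans Finset.subset_union_right)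
        (Finset.subset_inter hBY hBX)).trans (Finset.card_le_card ?_)
      intro v hv
      simp only [Finset.mem_inter, Finset.mem_union] at hv ⊢
      refine ⟨?_, hv.2.1⟩
      rcases hv.1 with h2 | h2
      · exact h2
      · exact hSY (Finset.mem_insert_of_mem (Finset.mem_inter.2 ⟨h2, hv.2.2⟩)))
  have hsub₁ : ∀ a ∈ A, C₁ a ⊆ X₁ := fun a ha =>
    Conn.subset_of (hC₁ a ha).2.1 (fun u v huv => huv.2.2) a (hC₁ a ha).1 (hAX ha)
  have hsub₂ : ∀ b ∈ insert y S, C₂ b ⊆ X₂ := fun b hb =>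
    Conn.subset_of (hC₂ b hb).2.1 (fun u v huv => huv.2.2) b (hC₂ b hb).1 (by
      rcases Finset.mem_insert.1 hb with rfl | hb
      · exact hy.1
      · exact (Finset.mem_inter.1 hb).2)
  obtain ⟨g, hg, hginj, hguniq, _⟩ := exists_ends (hA.trans hcx.symm) C₁
    (fun a ha => (hC₁ a ha).2.2) hd₁
  let g' : V → V := fun a => if g a = x then y else g a
  have hg'mem : ∀ a ∈ A, g' a ∈ insert y S := by
    intro a ha
    simp only [g']
    split_ifs with h1
    · exact Finset.mem_insert_self _ _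
    · exact Finset.mem_insert_of_mem ((Finset.mem_insert.1 (hg a ha).2).resolve_left h1)
  have hg'inj : ∀ a ∈ A, ∀ a' ∈ A, g' a = g' a' → a = a' := by
    intro a ha a' ha' heq
    apply hginj a ha a' ha'
    simp only [g'] at heq
    split_ifs at heq with h1 h2 h2
    · rw [h1, h2]
    · exfalso
      exact hyS (heq ▸ (Finset.mem_insert.1 (hg a' ha').2).resolve_left h2)
    · exfalso
      exact hyS (heq ▸ (Finset.mem_insert.1 (hg a ha).2).resolve_left h1)
    · exact heq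
  refine ⟨fun a => C₁ a ∪ C₂ (g' a), ?_, ?_⟩
  · intro a ha
    refine ⟨Finset.mem_union_left _ (hC₁ a ha).1, ?_, ?_⟩
    · apply Conn.union (Conn.mono (Q' := inside Q X₁) (fun u v huv => huv.1) (hC₁ a ha).2.1)
        (Conn.mono (Q' := inside Q X₂) (fun u v huv => huv.1) (hC₂ _ (hg'mem a ha)).2.1)
      refine ⟨g a, (hg a ha).1, g' a, (hC₂ _ (hg'mem a ha)).1, ?_⟩
      by_cases h1 : g a = x
      · right
        simp only [g', h1, if_true]
        exact hxy
      · left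
        simp only [g', h1, if_false]
    · exact (hC₂ _ (hg'mem a ha)).2.2.mono
        (Finset.inter_subset_inter Finset.subset_union_right Finset.Subset.rfl)
  · have hcr : ∀ a ∈ A, ∀ a' ∈ A, a ≠ a' → Disjoint (C₁ a) (C₂ (g' a')) := by
      intro a ha a' ha' hne
      rw [Finset.disjoint_left]
      intro v hv1 hv2
      have hvS : v ∈ S := Finset.mem_inter.2 ⟨hsub₁ a ha hv1, hsub₂ _ (hg'mem a' ha') hv2⟩
      have e1 : v = g a := hguniq a ha v (Finset.mem_insert_of_mem hvS) hv1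
      have e2 : v = g' a' := by
        by_contra hne2
        exact Finset.disjoint_left.1 (hd₂ v (Finset.mem_insert_of_mem hvS) _ (hg'mem a' ha') hne2)
          (hC₂ v (Finset.mem_insert_of_mem hvS)).1 hv2
      have e3 : g' a = v := by
        have h1 : g a ≠ x := fun hc => hxS (hc ▸ e1 ▸ hvS)
        simp only [g', h1, if_false]
        exact e1.symm
      exact hne (hg'inj a ha a' ha' (e3.trans e2))
    intro a ha a' ha' hne
    rw [Finset.disjoint_union_left, Finset.disjoint_union_right, Finset.disjoint_union_right]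
    refine ⟨⟨hd₁ a ha a' ha' hne, hcr a ha a' ha' hne⟩, (hcr a' ha' a ha hne.symm).symm, ?_⟩
    exact hd₂ _ (hg'mem a ha) _ (hg'mem a' ha') (fun h1 => hne (hg'inj a ha a' ha' h1))

/-- PM-9: Menger's theorem, with connected sets. -/
theorem menger {V : Type} [Fintype V] (Q : SimpleGraph V) (A B : Finset V) (k : ℕ)
    (hA : A.card = k) (hB : B.card = k)
    (h : ∀ X₁ X₂ : Finset V, IsSep Q univ X₁ X₂ → A ⊆ X₁ → B ⊆ X₂ → k ≤ (X₁ ∩ X₂).card) :
    ∃ C : V → Finset V, (∀ a ∈ A, a ∈ C a ∧ ConnIn Q (C a) ∧ (C a ∩ B).Nonempty) ∧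
      ∀ a ∈ A, ∀ a' ∈ A, a ≠ a' → Disjoint (C a) (C a') :=
  menger_aux (eN Q) Q rfl A B k hA hB h

end Pool.Agent.Helper35.PM
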