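import Pool.Agent.Helper20.PM.Menger

set_option autoImplicit false

/-!
# PM-10: the rooted model lemma of Robertson and Seymour
-/

namespace Pool.Agent.Helper35.PM

open Finset
open scoped Classical

namespace Rooted

variable {V : Type} {m : ℕ}

/-- the hypotheses of the generalised statement -/
structure RH (Q : SimpleGraph V) (W Z : Finset V) (B : Fin m → Finset V) : Prop where
  hZ : Z ⊆ W
  hm : 2 * Z.card ≤ m
  ne : ∀ i, (B i).Nonempty
  sub : ∀ i, B i ⊆ W
  dis : ∀ i j, i ≠ j → Disjoint (B i) (B j)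
  h1 : ∀ i, ConnIn Q (B i) ∨ ∀ T ⊆ B i, T.Nonempty → (∀ x ∈ T, ∀ y ∈ B i \ T, ¬ Q.Adj x y) →
    (T ∩ Z).Nonempty
  h2 : ∀ i j, i ≠ j → (∃ x ∈ B i, ∃ y ∈ B j, Q.Adj x y) ∨
    ((B i ∩ Z).Nonempty ∧ (B j ∩ Z).Nonempty)
  h3 : ∀ X₁ X₂ : Finset V, IsSep Q W X₁ X₂ → Z ⊆ X₁ → (∃ i, B i ⊆ X₂ \ X₁) →
    Z.card ≤ (X₁ ∩ X₂).card

/-- the conclusion -/
def Good (Q : SimpleGraph V) (W Z : Finset V) : Prop :=
  ∃ C : V → Finset V, (∀ z ∈ Z, z ∈ C z ∧ ConnIn Q (C z) ∧ C z ⊆ W) ∧
    ∀ z ∈ Z, ∀ z' ∈ Z, z ≠ z' → Disjoint (C z) (C z') ∧ ∃ x ∈ C z, ∃ y ∈ C z', Q.Adj x y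

theorem sep_cases {Q : SimpleGraph V} {W X₁ X₂ : Finset V} (h : IsSep Q W X₁ X₂) {v : V}
    (hv : v ∈ W) : v ∈ X₁ ∨ v ∈ X₂ := by
  rw [← Finset.mem_union, h.1]; exact hv

/-- Case A -/
theorem caseA [Fintype V] {Q : SimpleGraph V} {W Z : Finset V} {B : Fin m → Finset V}
    (H : RH Q W Z B)
    (ih : ∀ (Z' W' : Finset V) (B' : Fin m → Finset V), W'.card < W.card → RH Q W' Z' B' →
      Good Q W' Z')
    (X₁ X₂ : Finset V) (hsep : IsSep Q W X₁ X₂) (hZX : Z ⊆ X₁) (i₀ : Fin m)
    (hi₀ : B i₀ ⊆ X₂ \ X₁) (hcard : (X₁ ∩ X₂).card = Z.card) (hne : (X₁ \ X₂).Nonempty) :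
    Good Q W Z := by
  have hX1W : X₁ ⊆ W := by rw [← hsep.1]; exact Finset.subset_union_left
  have hX2W : X₂ ⊆ W := by rw [← hsep.1]; exact Finset.subset_union_right
  have hcr : ∀ x ∈ X₁, x ∉ X₂ → ∀ y ∈ X₂, y ∉ X₁ → ¬ Q.Adj x y := fun x hx hx' y hy hy' =>
    hsep.2 x (Finset.mem_sdiff.2 ⟨hx, hx'⟩) y (Finset.mem_sdiff.2 ⟨hy, hy'⟩)
  -- every `B j` meets `X₂`
  have hmeet2 : ∀ j, (B j ∩ X₂).Nonempty := by
    intro j
    by_cases hj : j = i₀
    · obtain ⟨v, hv⟩ := H.ne i₀
      subst hj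
      exact ⟨v, Finset.mem_inter.2 ⟨hv, (Finset.mem_sdiff.1 (hi₀ hv)).1⟩⟩
    rcases H.h2 i₀ j (fun h => hj h.symm) with ⟨x, hx, y, hy, hxy⟩ | ⟨h, _⟩
    · refine ⟨y, Finset.mem_inter.2 ⟨hy, ?_⟩⟩
      have hx' := Finset.mem_sdiff.1 (hi₀ hx)
      by_contra hy2
      have hy1 : y ∈ X₁ := (sep_cases hsep (H.sub j hy)).resolve_right hy2
      exact hcr y hy1 hy2 x hx'.1 hx'.2 hxy.symm
    · exfalso
      obtain ⟨v, hv⟩ := h
      rw [Finset.mem_inter] at hv
      exact (Finset.mem_sdiff.1 (hi₀ hv.1)).2 (hZX hv.2)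
  -- if `B j` meets `X₁` then it meets `X₁ ∩ X₂`
  have hmeet1 : ∀ j, (B j ∩ X₁).Nonempty → (B j ∩ (X₁ ∩ X₂)).Nonempty := by
    intro j hj
    by_contra hcon
    rw [Finset.not_nonempty_iff_eq_empty] at hcon
    have hno : ∀ v ∈ B j, v ∈ X₁ → v ∉ X₂ := by
      intro v hv h1 h2
      have : v ∈ B j ∩ (X₁ ∩ X₂) :=
        Finset.mem_inter.2 ⟨hv, Finset.mem_inter.2 ⟨h1, h2⟩⟩
      rw [hcon] at this
      exact absurd this (Finset.notMem_empty v)
    have hout : ∀ x ∈ B j ∩ X₂, ∀ y ∈ B j \ (B j ∩ X₂), ¬ Q.Adj x y := by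
      intro x hx y hy hxy
      rw [Finset.mem_inter] at hx
      rw [Finset.mem_sdiff, Finset.mem_inter] at hy
      have hy2 : y ∉ X₂ := fun h => hy.2 ⟨hy.1, h⟩
      have hy1 : y ∈ X₁ := (sep_cases hsep (H.sub j hy.1)).resolve_right hy2
      exact hcr y hy1 hy2 x hx.2 (fun h => hno x hx.1 h hx.2) hxy.symm
    rcases H.h1 j with hc | hc
    · have hneq : B j ∩ X₂ ≠ B j := by
        intro h
        obtain ⟨v, hv⟩ := hj
        rw [Finset.mem_inter] at hv
        have h2 : v ∈ B j ∩ X₂ := by rw [h]; exact hv.1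
        exact hno v hv.1 hv.2 (Finset.mem_inter.1 h2).2
      obtain ⟨x, hx, y, hy, hxy⟩ := hc.2 _ Finset.inter_subset_left (hmeet2 j) hneq
      exact hout x hx y hy hxy
    · obtain ⟨v, hv⟩ := hc _ Finset.inter_subset_left (hmeet2 j) hout
      rw [Finset.mem_inter, Finset.mem_inter] at hv
      exact hno v hv.1.1 (hZX hv.2) hv.1.2
  have hX2lt : X₂.card < W.card := by
    apply Finset.card_lt_card
    rw [Finset.ssubset_iff_of_subset hX2W]
    obtain ⟨v, hv⟩ := hne
    rw [Finset.mem_sdiff] at hv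
    exact ⟨v, hX1W hv.1, hv.2⟩
  have H' : RH Q X₂ (X₁ ∩ X₂) (fun j => B j ∩ X₂) := by
    refine ⟨Finset.inter_subset_right, by rw [hcard]; exact H.hm, hmeet2,
      fun i => Finset.inter_subset_right, ?_, ?_, ?_, ?_⟩
    · intro i j hij
      exact (H.dis i j hij).mono Finset.inter_subset_left Finset.inter_subset_left
    · intro j
      by_cases hcase : ConnIn Q (B j) ∧ B j ⊆ X₂ \ X₁
      · left
        have : B j ∩ X₂ = B j := Finset.inter_eq_left.2
          (hcase.2.trans Finset.sdiff_subset)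
        rw [this]
        exact hcase.1
      · right
        intro T hT hTne hout
        by_contra hcon
        rw [Finset.not_nonempty_iff_eq_empty] at hcon
        have hTX : ∀ x ∈ T, x ∈ X₂ ∧ x ∉ X₁ := by
          intro x hx
          have h2 := (Finset.mem_inter.1 (hT hx)).2
          refine ⟨h2, fun h1 => ?_⟩
          have : x ∈ T ∩ (X₁ ∩ X₂) := Finset.mem_inter.2 ⟨hx, Finset.mem_inter.2 ⟨h1, h2⟩⟩
          rw [hcon] at this
          exact absurd this (Finset.notMem_empty x)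
        have hTB : T ⊆ B j := hT.trans Finset.inter_subset_left
        have hout' : ∀ x ∈ T, ∀ y ∈ B j \ T, ¬ Q.Adj x y := by
          intro x hx y hy hxy
          rw [Finset.mem_sdiff] at hy
          by_cases hy2 : y ∈ X₂
          · exact hout x hx y (Finset.mem_sdiff.2 ⟨Finset.mem_inter.2 ⟨hy.1, hy2⟩, hy.2⟩) hxy
          · have hy1 : y ∈ X₁ := (sep_cases hsep (H.sub j hy.1)).resolve_right hy2
            exact hcr y hy1 hy2 x (hTX x hx).1 (hTX x hx).2 hxy.symm
        rcases H.h1 j with hc | hc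
        · by_cases hTe : T = B j
          · apply hcase
            refine ⟨hc, ?_⟩
            intro x hx
            rw [← hTe] at hx
            exact Finset.mem_sdiff.2 (hTX x hx)
          · obtain ⟨x, hx, y, hy, hxy⟩ := hc.2 T hTB hTne hTe
            exact hout' x hx y hy hxy
        · obtain ⟨v, hv⟩ := hc T hTB hTne hout'
          rw [Finset.mem_inter] at hv
          exact (hTX v hv.1).2 (hZX hv.2)
    · intro i j hij
      have key : (B i ∩ X₁).Nonempty → (B j ∩ X₁).Nonempty →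
          ((B i ∩ X₂ ∩ (X₁ ∩ X₂)).Nonempty ∧ (B j ∩ X₂ ∩ (X₁ ∩ X₂)).Nonempty) := by
        intro h1 h2
        constructor
        · obtain ⟨v, hv⟩ := hmeet1 i h1
          rw [Finset.mem_inter, Finset.mem_inter] at hv
          exact ⟨v, by simp only [Finset.mem_inter]; tauto⟩
        · obtain ⟨v, hv⟩ := hmeet1 j h2
          rw [Finset.mem_inter, Finset.mem_inter] at hv
          exact ⟨v, by simp only [Finset.mem_inter]; tauto⟩
      rcases H.h2 i j hij with ⟨x, hx, y, hy, hxy⟩ | ⟨h1, h2⟩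
      · by_cases hx2 : x ∈ X₂
        · by_cases hy2 : y ∈ X₂
          · exact Or.inl ⟨x, Finset.mem_inter.2 ⟨hx, hx2⟩, y, Finset.mem_inter.2 ⟨hy, hy2⟩, hxy⟩
          · right
            have hy1 : y ∈ X₁ := (sep_cases hsep (H.sub j hy)).resolve_right hy2
            have hx1 : x ∈ X₁ := by
              by_contra hx1
              exact hcr y hy1 hy2 x hx2 hx1 hxy.symm
            exact key ⟨x, Finset.mem_inter.2 ⟨hx, hx1⟩⟩ ⟨y, Finset.mem_inter.2 ⟨hy, hy1⟩⟩
        · right
          have hx1 : x ∈ X₁ := (sep_cases hsep (H.sub i hx)).resolve_right hx2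
          have hy1 : y ∈ X₁ := by
            by_contra hy1
            have hy2 : y ∈ X₂ := (sep_cases hsep (H.sub j hy)).resolve_left hy1
            exact hcr x hx1 hx2 y hy2 hy1 hxy
          exact key ⟨x, Finset.mem_inter.2 ⟨hx, hx1⟩⟩ ⟨y, Finset.mem_inter.2 ⟨hy, hy1⟩⟩
      · right
        exact key (h1.mono (Finset.inter_subset_inter_left hZX))
          (h2.mono (Finset.inter_subset_inter_left hZX))
    · intro Y₁ Y₂ hY hZY hex
      obtain ⟨i, hi⟩ := hex
      rw [hcard]
      have hnm : ¬ (B i ∩ X₁).Nonempty := by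
        intro h1
        obtain ⟨v, hv⟩ := hmeet1 i h1
        rw [Finset.mem_inter] at hv
        have h2 := hi (Finset.mem_inter.2 ⟨hv.1, (Finset.mem_inter.1 hv.2).2⟩)
        exact (Finset.mem_sdiff.1 h2).2 (hZY hv.2)
      refine (H.h3 (Y₁ ∪ X₁) Y₂ ⟨?_, ?_⟩ (hZX.trans Finset.subset_union_right) ⟨i, ?_⟩).trans
        (Finset.card_le_card ?_)
      · rw [Finset.union_right_comm, hY.1, Finset.union_comm, hsep.1]
      · intro u hu v hv huv
        simp only [Finset.mem_sdiff, Finset.mem_union] at hu hv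
        push Not at hv
        have hv2 : v ∈ X₂ := by rw [← hY.1]; exact Finset.mem_union_right _ hv.1
        by_cases hu2 : u ∈ X₂
        · have hu1 : u ∈ Y₁ := (sep_cases hY hu2).resolve_right hu.2
          exact hY.2 u (Finset.mem_sdiff.2 ⟨hu1, hu.2⟩) v
            (Finset.mem_sdiff.2 ⟨hv.1, hv.2.1⟩) huv
        · have hu1 : u ∈ X₁ := by
            rcases hu.1 with h1 | h1
            · exfalso
              apply hu2
              rw [← hY.1]
              exact Finset.mem_union_left _ h1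
            · exact h1
          exact hcr u hu1 hu2 v hv2 hv.2.2 huv
      · intro v hv
        have hv1 : v ∉ X₁ := fun h => hnm ⟨v, Finset.mem_inter.2 ⟨hv, h⟩⟩
        have hv2 : v ∈ X₂ := (sep_cases hsep (H.sub i hv)).resolve_left hv1
        have h2 := Finset.mem_sdiff.1 (hi (Finset.mem_inter.2 ⟨hv, hv2⟩))
        rw [Finset.mem_sdiff, Finset.mem_union]
        tauto
      · intro v hv
        rw [Finset.mem_inter, Finset.mem_union] at hv
        rw [Finset.mem_inter]
        refine ⟨?_, hv.2⟩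
        rcases hv.1 with h1 | h1
        · exact h1
        · apply hZY
          rw [Finset.mem_inter]
          refine ⟨h1, ?_⟩
          rw [← hY.1]
          exact Finset.mem_union_right _ hv.2
  obtain ⟨C', hC', hd'⟩ := ih _ _ _ hX2lt H'
  -- Menger inside `X₁`
  obtain ⟨P, hP, hdP⟩ := menger (inside Q X₁) Z (X₁ ∩ X₂) Z.card rfl hcard (by
    intro Y₁ Y₂ hY hZY hZ'Y
    have hYu : ∀ v, v ∈ Y₁ ∨ v ∈ Y₂ := fun v => sep_cases hY (Finset.mem_univ v)
    refine (H.h3 (Y₁ ∩ X₁) ((Y₂ ∩ X₁) ∪ X₂) ⟨?_, ?_⟩ (Finset.subset_inter hZY hZX)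
      ⟨i₀, ?_⟩).trans (Finset.card_le_card ?_)
    · ext v
      rw [← hsep.1]
      simp only [Finset.mem_union, Finset.mem_inter]
      rcases hYu v with h | h <;> tauto
    · intro u hu v hv huv
      simp only [Finset.mem_sdiff, Finset.mem_inter, Finset.mem_union] at hu hv
      push Not at hu hv
      by_cases hv1 : v ∈ X₁
      · have hvY1 : v ∉ Y₁ := fun h => hv.2 h hv1
        have hvY2 : v ∈ Y₂ := (hYu v).resolve_left hvY1
        have huY2 : u ∉ Y₂ := fun h => hu.2.1 h hu.1.2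
        exact hY.2 u (Finset.mem_sdiff.2 ⟨hu.1.1, huY2⟩) v (Finset.mem_sdiff.2 ⟨hvY2, hvY1⟩)
          ⟨huv, hu.1.2, hv1⟩
      · have hv2 : v ∈ X₂ := by
          rcases hv.1 with h | h
          · exact absurd h.2 hv1
          · exact h
        exact hcr u hu.1.2 hu.2.2 v hv2 hv1 huv
    · intro v hv
      have h := Finset.mem_sdiff.1 (hi₀ hv)
      simp only [Finset.mem_sdiff, Finset.mem_union, Finset.mem_inter]
      tauto
    · intro v hv
      simp only [Finset.mem_inter, Finset.mem_union] at hv ⊢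
      refine ⟨hv.1.1, ?_⟩
      rcases hv.2 with h | h
      · exact h.1
      · exact hZ'Y (Finset.mem_inter.2 ⟨hv.1.2, h⟩))
  have hPsub : ∀ z ∈ Z, P z ⊆ X₁ := fun z hz =>
    Conn.subset_of (hP z hz).2.1 (fun u v huv => huv.2.2) z (hP z hz).1 (hZX hz)
  obtain ⟨g, hg, hginj, hguniq, _⟩ := exists_ends hcard.symm P (fun z hz => (hP z hz).2.2) hdP
  refine ⟨fun z => P z ∪ C' (g z), ?_, ?_⟩
  · intro z hz
    have h1 := hC' _ (hg z hz).2
    refine ⟨Finset.mem_union_left _ (hP z hz).1, ?_, ?_⟩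
    · exact Conn.union (Conn.mono (Q' := inside Q X₁) (fun u v huv => huv.1) (hP z hz).2.1)
        h1.2.1 ⟨g z, (hg z hz).1, g z, h1.1, Or.inl rfl⟩
    · exact Finset.union_subset ((hPsub z hz).trans hX1W) (h1.2.2.trans hX2W)
  · intro z hz z' hz' hne'
    have hgne : g z ≠ g z' := fun h => hne' (hginj z hz z' hz' h)
    have hcr2 : ∀ z ∈ Z, ∀ z' ∈ Z, z ≠ z' → Disjoint (P z) (C' (g z')) := by
      intro z hz z' hz' hne'
      rw [Finset.disjoint_left]
      intro v hv1 hv2
      have hvZ : v ∈ X₁ ∩ X₂ := Finset.mem_inter.2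
        ⟨hPsub z hz hv1, (hC' _ (hg z' hz').2).2.2 hv2⟩
      have e1 : v = g z := hguniq z hz v hvZ hv1
      have e2 : v = g z' := by
        by_contra hne2
        exact Finset.disjoint_left.1 (hd' v hvZ _ (hg z' hz').2 hne2).1 (hC' v hvZ).1 hv2
      exact hne' (hginj z hz z' hz' (e1.symm.trans e2))
    constructor
    · rw [Finset.disjoint_union_left, Finset.disjoint_union_right, Finset.disjoint_union_right]
      exact ⟨⟨hdP z hz z' hz' hne', hcr2 z hz z' hz' hne'⟩, (hcr2 z' hz' z hz hne'.symm).symm,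
        (hd' _ (hg z hz).2 _ (hg z' hz').2 hgne).1⟩
    · obtain ⟨x, hx, y, hy, hxy⟩ := (hd' _ (hg z hz).2 _ (hg z' hz').2 hgne).2
      exact ⟨x, Finset.mem_union_right _ hx, y, Finset.mem_union_right _ hy, hxy⟩

/-- contraction of `v` onto `u` -/
def contr (Q : SimpleGraph V) (u v : V) : SimpleGraph V where
  Adj x y := x ≠ v ∧ y ≠ v ∧ x ≠ y ∧ (Q.Adj x y ∨ (x = u ∧ Q.Adj v y) ∨ (y = u ∧ Q.Adj v x))
  symm := ⟨fun _ _ h => ⟨h.2.1, h.1, h.2.2.1.symm, by
    rcases h.2.2.2 with h | h | h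
    · exact Or.inl h.symm
    · exact Or.inr (Or.inr h)
    · exact Or.inr (Or.inl h)⟩⟩
  loopless := ⟨fun _ h => h.2.2.1 rfl⟩

/-- outgoing edges lift to the contraction -/
theorem contr_out {Q : SimpleGraph V} {u v : V} {S T : Finset V} (huv : Q.Adj v u)
    (hS : v ∈ S → u ∈ S) (hT : T ⊆ S.erase v)
    (h : ∃ x ∈ (if u ∈ T ∧ v ∈ S then insert v T else T),
      ∃ y ∈ S \ (if u ∈ T ∧ v ∈ S then insert v T else T), Q.Adj x y) :
    ∃ x ∈ T, ∃ y ∈ S.erase v \ T, (contr Q u v).Adj x y := by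
  obtain ⟨x, hx, y, hy, hxy⟩ := h
  have hTv : v ∉ T := fun hc => (Finset.mem_erase.1 (hT hc)).1 rfl
  split_ifs at hx hy with hc
  · rw [Finset.mem_insert] at hx
    rw [Finset.mem_sdiff, Finset.mem_insert] at hy
    push Not at hy
    have hy' : y ∈ S.erase v \ T :=
      Finset.mem_sdiff.2 ⟨Finset.mem_erase.2 ⟨hy.2.1, hy.1⟩, hy.2.2⟩
    rcases hx with rfl | hx
    · refine ⟨u, hc.1, y, hy', huv.ne', hy.2.1, ?_, Or.inr (Or.inl ⟨rfl, hxy⟩)⟩
      intro h
      exact hy.2.2 (h ▸ hc.1)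
    · exact ⟨x, hx, y, hy', fun h => hTv (h ▸ hx), hy.2.1, hxy.ne, Or.inl hxy⟩
  · rw [Finset.mem_sdiff] at hy
    by_cases hyv : y = v
    · subst hyv
      have huT : u ∉ T := fun h => hc ⟨h, hy.1⟩
      refine ⟨x, hx, u, ?_, fun h => hTv (h ▸ hx), huv.ne', ?_, Or.inr (Or.inr ⟨rfl, hxy.symm⟩)⟩
      · exact Finset.mem_sdiff.2 ⟨Finset.mem_erase.2 ⟨huv.ne', hS hy.1⟩, huT⟩
      · intro h
        exact huT (h ▸ hx)
    · exact ⟨x, hx, y, Finset.mem_sdiff.2 ⟨Finset.mem_erase.2 ⟨hyv, hy.1⟩, hy.2⟩,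
        fun h => hTv (h ▸ hx), hyv, hxy.ne, Or.inl hxy⟩

/-- Case B -/
theorem caseB [Fintype V] {Q : SimpleGraph V} {W Z : Finset V} {B : Fin m → Finset V}
    (H : RH Q W Z B)
    (ih : ∀ (Q' : SimpleGraph V) (Z' W' : Finset V) (B' : Fin m → Finset V),
      W'.card < W.card → RH Q' W' Z' B' → Good Q' W' Z')
    (hnoA : ∀ X₁ X₂, IsSep Q W X₁ X₂ → Z ⊆ X₁ → (∃ i, B i ⊆ X₂ \ X₁) →
      (X₁ ∩ X₂).card = Z.card → ¬ (X₁ \ X₂).Nonempty)
    (u v : V) (hu : u ∈ W) (hv : v ∈ W) (hvZ : v ∉ Z) (huv : Q.Adj v u)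
    (hB : (∃ j, u ∈ B j ∧ v ∈ B j) ∨ ∀ j, v ∉ B j) : Good Q W Z := by
  have huv' : u ≠ v := huv.ne'
  have hBv : ∀ j, v ∈ B j → u ∈ B j := by
    intro j hj
    rcases hB with ⟨i, hi1, hi2⟩ | h
    · by_cases hij : i = j
      · exact hij ▸ hi1
      · exact absurd hj (Finset.disjoint_left.1 (H.dis i j hij) hi2)
    · exact absurd hj (h j)
  have hlt : (W.erase v).card < W.card := Finset.card_erase_lt_of_mem hv
  have H' : RH (contr Q u v) (W.erase v) Z (fun j => (B j).erase v) := by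
    refine ⟨?_, H.hm, ?_, ?_, ?_, ?_, ?_, ?_⟩
    · intro z hz
      exact Finset.mem_erase.2 ⟨fun h => hvZ (h ▸ hz), H.hZ hz⟩
    · intro j
      by_cases hj : v ∈ B j
      · exact ⟨u, Finset.mem_erase.2 ⟨huv', hBv j hj⟩⟩
      · rw [Finset.erase_eq_of_notMem hj]
        exact H.ne j
    · intro j
      exact Finset.erase_subset_erase v (H.sub j)
    · intro i j hij
      exact (H.dis i j hij).mono (Finset.erase_subset _ _) (Finset.erase_subset _ _)
    · intro j
      have hsub : ∀ T ⊆ (B j).erase v, (if u ∈ T ∧ v ∈ B j then insert v T else T) ⊆ B j := by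
        intro T hT
        split_ifs with hc
        · exact Finset.insert_subset hc.2 (hT.trans (Finset.erase_subset _ _))
        · exact hT.trans (Finset.erase_subset _ _)
      have hne' : ∀ T : Finset V, T.Nonempty →
          (if u ∈ T ∧ v ∈ B j then insert v T else T).Nonempty := by
        intro T hT
        split_ifs with hc
        · exact Finset.insert_nonempty _ _
        · exact hT
      rcases H.h1 j with hc | hc
      · left
        refine ⟨?_, ?_⟩
        · by_cases hj : v ∈ B j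
          · exact ⟨u, Finset.mem_erase.2 ⟨huv', hBv j hj⟩⟩
          · rw [Finset.erase_eq_of_notMem hj]
            exact H.ne j
        · intro T hT hTne hTneq
          apply contr_out huv (hBv j) hT
          apply hc.2 _ (hsub T hT) (hne' T hTne)
          intro heq
          apply hTneq
          apply Finset.Subset.antisymm hT
          intro x hx
          rw [Finset.mem_erase] at hx
          have h2 := hx.2
          rw [← heq] at h2
          split_ifs at h2 with hc2
          · exact (Finset.mem_insert.1 h2).resolve_left hx.1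
          · exact h2
      · right
        intro T hT hTne hout
        have h3 := hc _ (hsub T hT) (hne' T hTne) (by
          intro x hx y hy hxy
          obtain ⟨x', hx', y', hy', hxy'⟩ := contr_out huv (hBv j) hT ⟨x, hx, y, hy, hxy⟩
          exact hout x' hx' y' hy' hxy')
        obtain ⟨z, hz⟩ := h3
        rw [Finset.mem_inter] at hz
        refine ⟨z, Finset.mem_inter.2 ⟨?_, hz.2⟩⟩
        have h4 := hz.1
        split_ifs at h4 with hc2
        · exact (Finset.mem_insert.1 h4).resolve_left (fun h => hvZ (h ▸ hz.2))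
        · exact h4
    · intro i j hij
      rcases H.h2 i j hij with ⟨x, hx, y, hy, hxy⟩ | ⟨h1, h2⟩
      · left
        by_cases hxv : x = v
        · subst hxv
          have hyv : y ≠ x := hxy.ne'
          have hyu : u ≠ y := fun h =>
            Finset.disjoint_left.1 (H.dis i j hij) (hBv i hx) (h ▸ hy)
          exact ⟨u, Finset.mem_erase.2 ⟨huv', hBv i hx⟩, y, Finset.mem_erase.2 ⟨hyv, hy⟩,
            huv', hyv, hyu, Or.inr (Or.inl ⟨rfl, hxy⟩)⟩
        by_cases hyv : y = v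
        · subst hyv
          have hxu : x ≠ u := fun h =>
            Finset.disjoint_left.1 (H.dis i j hij) hx (h ▸ hBv j hy)
          exact ⟨x, Finset.mem_erase.2 ⟨hxv, hx⟩, u, Finset.mem_erase.2 ⟨huv', hBv j hy⟩,
            hxv, huv', hxu, Or.inr (Or.inr ⟨rfl, hxy.symm⟩)⟩
        exact ⟨x, Finset.mem_erase.2 ⟨hxv, hx⟩, y, Finset.mem_erase.2 ⟨hyv, hy⟩,
          hxv, hyv, hxy.ne, Or.inl hxy⟩
      · right
        have key : ∀ j, (B j ∩ Z).Nonempty → ((B j).erase v ∩ Z).Nonempty := by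
          rintro j ⟨z, hz⟩
          rw [Finset.mem_inter] at hz
          exact ⟨z, Finset.mem_inter.2 ⟨Finset.mem_erase.2 ⟨fun h => hvZ (h ▸ hz.2), hz.1⟩,
            hz.2⟩⟩
        exact ⟨key i h1, key j h2⟩
    · intro Y₁ Y₂ hY hZY hex
      obtain ⟨i, hi⟩ := hex
      by_contra hlt'
      push Not at hlt'
      have hYv1 : v ∉ Y₁ := by
        intro h
        have : v ∈ W.erase v := by rw [← hY.1]; exact Finset.mem_union_left _ h
        exact (Finset.mem_erase.1 this).1 rfl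
      have hYv2 : v ∉ Y₂ := by
        intro h
        have : v ∈ W.erase v := by rw [← hY.1]; exact Finset.mem_union_right _ h
        exact (Finset.mem_erase.1 this).1 rfl
      have huY : u ∈ Y₁ ∨ u ∈ Y₂ := sep_cases hY (Finset.mem_erase.2 ⟨huv', hu⟩)
      set X₁ : Finset V := if u ∈ Y₁ then insert v Y₁ else Y₁ with hX1
      set X₂ : Finset V := if u ∈ Y₂ then insert v Y₂ else Y₂ with hX2
      have m1 : ∀ x, x ∈ X₁ ↔ x ∈ Y₁ ∨ (x = v ∧ u ∈ Y₁) := by
        intro x
        rw [hX1]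
        split_ifs with hc
        · rw [Finset.mem_insert]; tauto
        · tauto
      have m2 : ∀ x, x ∈ X₂ ↔ x ∈ Y₂ ∨ (x = v ∧ u ∈ Y₂) := by
        intro x
        rw [hX2]
        split_ifs with hc
        · rw [Finset.mem_insert]; tauto
        · tauto
      have hsep : IsSep Q W X₁ X₂ := by
        refine ⟨?_, ?_⟩
        · ext x
          rw [Finset.mem_union, m1, m2]
          have h1 : x ∈ W.erase v ↔ x ∈ Y₁ ∨ x ∈ Y₂ := by rw [← hY.1, Finset.mem_union]
          rw [Finset.mem_erase] at h1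
          by_cases hxv : x = v
          · subst hxv
            tauto
          · tauto
        · intro a ha b hb hab
          rw [Finset.mem_sdiff, m1, m2] at ha
          rw [Finset.mem_sdiff, m1, m2] at hb
          push Not at ha hb
          by_cases hav : a = v
          · subst hav
            have hu1 : u ∈ Y₁ := by tauto
            have hu2 : u ∉ Y₂ := by tauto
            have hb1 : b ∈ Y₂ := by
              rcases hb.1 with h | h
              · exact h
              · exact absurd h.2 hu2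
            exact hY.2 u (Finset.mem_sdiff.2 ⟨hu1, hu2⟩) b (Finset.mem_sdiff.2 ⟨hb1, hb.2.1⟩)
              ⟨huv', hab.ne', fun h => hb.2.1 (h ▸ hu1), Or.inr (Or.inl ⟨rfl, hab⟩)⟩
          by_cases hbv : b = v
          · subst hbv
            have hu1 : u ∈ Y₂ := by tauto
            have hu2 : u ∉ Y₁ := by tauto
            have ha1 : a ∈ Y₁ := by
              rcases ha.1 with h | h
              · exact h
              · exact absurd h.2 hu2
            exact hY.2 a (Finset.mem_sdiff.2 ⟨ha1, ha.2.1⟩) u (Finset.mem_sdiff.2 ⟨hu1, hu2⟩)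
              ⟨hab.ne, huv', fun h => ha.2.1 (h ▸ hu1), Or.inr (Or.inr ⟨rfl, hab.symm⟩)⟩
          have ha1 : a ∈ Y₁ := by tauto
          have hb1 : b ∈ Y₂ := by tauto
          exact hY.2 a (Finset.mem_sdiff.2 ⟨ha1, ha.2.1⟩) b (Finset.mem_sdiff.2 ⟨hb1, hb.2.1⟩)
            ⟨hav, hbv, hab.ne, Or.inl hab⟩
      have hZX : Z ⊆ X₁ := fun z hz => (m1 z).2 (Or.inl (hZY hz))
      have hex' : ∃ i, B i ⊆ X₂ \ X₁ := by
        refine ⟨i, ?_⟩
        intro x hx
        rw [Finset.mem_sdiff, m1, m2]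
        by_cases hxv : x = v
        · subst hxv
          have h1 := Finset.mem_sdiff.1 (hi (Finset.mem_erase.2 ⟨huv', hBv i hx⟩))
          tauto
        · have h1 := Finset.mem_sdiff.1 (hi (Finset.mem_erase.2 ⟨hxv, hx⟩))
          tauto
      have h5 := H.h3 X₁ X₂ hsep hZX hex'
      have h6 : X₁ ∩ X₂ ⊆ insert v (Y₁ ∩ Y₂) := by
        intro x hx
        rw [Finset.mem_inter, m1, m2] at hx
        rw [Finset.mem_insert, Finset.mem_inter]
        tauto
      have h7 : (X₁ ∩ X₂).card ≤ (Y₁ ∩ Y₂).card + 1 :=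
        (Finset.card_le_card h6).trans (Finset.card_insert_le _ _)
      have h8 : (X₁ ∩ X₂).card = Z.card := by omega
      have h9 : v ∈ X₁ ∩ X₂ := by
        by_contra hcon
        have h10 : X₁ ∩ X₂ ⊆ Y₁ ∩ Y₂ := by
          intro x hx
          rcases Finset.mem_insert.1 (h6 hx) with h | h
          · exact absurd (h ▸ hx) hcon
          · exact h
        have := Finset.card_le_card h10
        omega
      have h11 := hnoA X₁ X₂ hsep hZX hex' h8
      rw [Finset.not_nonempty_iff_eq_empty, Finset.sdiff_eq_empty_iff_subset] at h11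
      have h12 : X₁ ∩ X₂ = X₁ := Finset.inter_eq_left.2 h11
      rw [h12] at h8 h9
      have h13 : Z = X₁ := Finset.eq_of_subset_of_card_le hZX h8.le
      exact hvZ (h13 ▸ h9)
  obtain ⟨C, hC, hd⟩ := ih _ _ _ _ hlt H'
  have hCv : ∀ z ∈ Z, v ∉ C z := fun z hz h => (Finset.mem_erase.1 ((hC z hz).2.2 h)).1 rfl
  refine ⟨fun z => if u ∈ C z then insert v (C z) else C z, ?_, ?_⟩
  · intro z hz
    dsimp only
    refine ⟨?_, ?_, ?_⟩
    · split_ifs with hc
      · exact Finset.mem_insert_of_mem (hC z hz).1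
      · exact (hC z hz).1
    · split_ifs with hc
      · refine ⟨Finset.insert_nonempty _ _, ?_⟩
        intro T hT hTne hTneq
        by_cases huT : u ∈ T
        · by_cases hvT : v ∈ T
          · have h1 : T.erase v ⊆ C z := by
              intro x hx
              rw [Finset.mem_erase] at hx
              exact (Finset.mem_insert.1 (hT hx.2)).resolve_left hx.1
            have h2 : T.erase v ≠ C z := by
              intro h
              apply hTneq
              rw [← h, Finset.insert_erase hvT]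
            obtain ⟨x, hx, y, hy, hxy⟩ := (hC z hz).2.1.2 (T.erase v) h1
              ⟨u, Finset.mem_erase.2 ⟨huv', huT⟩⟩ h2
            rw [Finset.mem_erase] at hx
            rw [Finset.mem_sdiff, Finset.mem_erase] at hy
            have hyv : y ≠ v := fun h => hCv z hz (h ▸ hy.1)
            have hyT : y ∉ T := fun h => hy.2 ⟨hyv, h⟩
            have hy' : y ∈ insert v (C z) \ T :=
              Finset.mem_sdiff.2 ⟨Finset.mem_insert_of_mem hy.1, hyT⟩
            rcases hxy.2.2.2 with h | h | h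
            · exact ⟨x, hx.2, y, hy', h⟩
            · exact ⟨v, hvT, y, hy', h.2⟩
            · exact absurd (h.1 ▸ huT) hyT
          · exact ⟨u, huT, v, Finset.mem_sdiff.2 ⟨Finset.mem_insert_self _ _, hvT⟩, huv.symm⟩
        · by_cases hvT : v ∈ T
          · exact ⟨v, hvT, u, Finset.mem_sdiff.2 ⟨Finset.mem_insert_of_mem hc, huT⟩, huv⟩
          · have h1 : T ⊆ C z := by
              intro x hx
              exact (Finset.mem_insert.1 (hT hx)).resolve_left (fun h => hvT (h ▸ hx))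
            have h2 : T ≠ C z := fun h => huT (h ▸ hc)
            obtain ⟨x, hx, y, hy, hxy⟩ := (hC z hz).2.1.2 T h1 hTne h2
            rw [Finset.mem_sdiff] at hy
            rcases hxy.2.2.2 with h | h | h
            · exact ⟨x, hx, y, Finset.mem_sdiff.2 ⟨Finset.mem_insert_of_mem hy.1, hy.2⟩, h⟩
            · exact absurd (h.1 ▸ hx) huT
            · exact ⟨x, hx, v, Finset.mem_sdiff.2 ⟨Finset.mem_insert_self _ _, hvT⟩, h.2.symm⟩
      · refine ⟨(hC z hz).2.1.1, ?_⟩
        intro T hT hTne hTneq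
        obtain ⟨x, hx, y, hy, hxy⟩ := (hC z hz).2.1.2 T hT hTne hTneq
        rcases hxy.2.2.2 with h | h | h
        · exact ⟨x, hx, y, hy, h⟩
        · exact absurd (h.1 ▸ hT hx) hc
        · exact absurd (h.1 ▸ (Finset.mem_sdiff.1 hy).1) hc
    · split_ifs with hc
      · exact Finset.insert_subset hv ((hC z hz).2.2.trans (Finset.erase_subset _ _))
      · exact (hC z hz).2.2.trans (Finset.erase_subset _ _)
  · intro z hz z' hz' hne
    dsimp only
    obtain ⟨h1, x, hx, y, hy, hxy⟩ := hd z hz z' hz' hne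
    have hvz := hCv z hz
    have hvz' := hCv z' hz'
    have hmem : ∀ z, ∀ x ∈ C z, x ∈ (if u ∈ C z then insert v (C z) else C z) := by
      intro z x hx
      split_ifs
      · exact Finset.mem_insert_of_mem hx
      · exact hx
    have hmemv : ∀ z, u ∈ C z → v ∈ (if u ∈ C z then insert v (C z) else C z) := by
      intro z hz
      rw [if_pos hz]
      exact Finset.mem_insert_self _ _
    constructor
    · rw [Finset.disjoint_left] at h1 ⊢
      intro w hw hw'
      split_ifs at hw hw' with hc hc'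
      · exact h1 hc hc'
      · rcases Finset.mem_insert.1 hw with rfl | hw
        · exact hvz' hw'
        · exact h1 hw hw'
      · rcases Finset.mem_insert.1 hw' with rfl | hw'
        · exact hvz hw
        · exact h1 hw hw'
      · exact h1 hw hw'
    · rcases hxy.2.2.2 with h | h | h
      · exact ⟨x, hmem z x hx, y, hmem z' y hy, h⟩
      · exact ⟨v, hmemv z (h.1 ▸ hx), y, hmem z' y hy, h.2⟩
      · exact ⟨x, hmem z x hx, v, hmemv z' (h.1 ▸ hy), h.2.symm⟩

/-- Case C -/
theorem caseC [Fintype V] {Q : SimpleGraph V} {W Z : Finset V} {B : Fin m → Finset V}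
    (H : RH Q W Z B)
    (hnoB : ∀ u ∈ W, ∀ v ∈ W, v ∉ Z → Q.Adj v u →
      ¬ ((∃ j, u ∈ B j ∧ v ∈ B j) ∨ ∀ j, v ∉ B j)) : Good Q W Z := by
  -- the singletons
  have hsing : ∀ j, ∀ v ∈ B j, v ∉ Z → B j = {v} := by
    intro j v hv hvZ
    have hout : ∀ x ∈ ({v} : Finset V), ∀ y ∈ B j \ {v}, ¬ Q.Adj x y := by
      intro x hx y hy hxy
      rw [Finset.mem_singleton] at hx
      subst hx
      rw [Finset.mem_sdiff] at hy
      exact hnoB y (H.sub j hy.1) x (H.sub j hv) hvZ hxy (Or.inl ⟨j, hy.1, hv⟩)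
    by_contra hne
    rcases H.h1 j with hc | hc
    · obtain ⟨x, hx, y, hy, hxy⟩ := hc.2 {v} (Finset.singleton_subset_iff.2 hv)
        (Finset.singleton_nonempty v) (fun h => hne h.symm)
      exact hout x hx y hy hxy
    · obtain ⟨z, hz⟩ := hc {v} (Finset.singleton_subset_iff.2 hv)
        (Finset.singleton_nonempty v) hout
      rw [Finset.mem_inter, Finset.mem_singleton] at hz
      exact hvZ (hz.1 ▸ hz.2)
  let J : Finset (Fin m) := univ.filter fun j => ¬ B j ⊆ Z
  have hJc : (univ \ J).card ≤ Z.card := by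
    have h1 : ∀ j : Fin m, ∃ v, v ∈ B j := fun j => H.ne j
    choose f hf using h1
    apply Finset.card_le_card_of_injOn f
    · intro j hj
      have h2 : B j ⊆ Z := by
        have := Finset.mem_coe.1 hj
        simp only [J, Finset.mem_sdiff, Finset.mem_filter, Finset.mem_univ, true_and,
          not_not] at this
        exact this
      exact h2 (hf j)
    · intro i _ j _ hij
      by_contra hne
      exact Finset.disjoint_left.1 (H.dis i j hne) (hf i) (hij ▸ hf j)
  have hJ : Z.card ≤ J.card := by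
    have h1 : (univ \ J).card + J.card = m := by
      rw [Finset.card_sdiff_add_card_eq_card (Finset.subset_univ J), Finset.card_univ,
        Fintype.card_fin]
    have := H.hm
    omega
  have hex : ∀ j : Fin m, ∃ v, v ∈ B j ∧ (j ∈ J → v ∉ Z) := by
    intro j
    by_cases hj : j ∈ J
    · have h1 : ¬ B j ⊆ Z := (Finset.mem_filter.1 hj).2
      rw [Finset.not_subset] at h1
      obtain ⟨v, hv, hvZ⟩ := h1
      exact ⟨v, hv, fun _ => hvZ⟩
    · obtain ⟨v, hv⟩ := H.ne j
      exact ⟨v, hv, fun h => absurd h hj⟩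
  choose f hf hfZ using hex
  have hfinj : ∀ i j, f i = f j → i = j := by
    intro i j hij
    by_contra hne
    exact Finset.disjoint_left.1 (H.dis i j hne) (hf i) (hij ▸ hf j)
  let K : Finset V := J.image f
  have hKcard : Z.card ≤ K.card := by
    rw [Finset.card_image_of_injective J (fun i j h => hfinj i j h)]
    exact hJ
  have hK : ∀ v ∈ K, ∃ j, B j = {v} ∧ v ∉ Z ∧ v ∈ W := by
    intro v hv
    obtain ⟨j, hj, rfl⟩ := Finset.mem_image.1 hv
    exact ⟨j, hsing j _ (hf j) (hfZ j hj), hfZ j hj, H.sub j (hf j)⟩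
  have hclique : ∀ v ∈ K, ∀ w ∈ K, v ≠ w → Q.Adj v w := by
    intro v hv w hw hne
    obtain ⟨i, hi, hiZ, _⟩ := hK v hv
    obtain ⟨j, hj, hjZ, _⟩ := hK w hw
    have hij : i ≠ j := by
      rintro rfl
      exact hne (Finset.singleton_injective (hi.symm.trans hj))
    rcases H.h2 i j hij with ⟨x, hx, y, hy, hxy⟩ | ⟨⟨z, hz⟩, _⟩
    · rw [hi, Finset.mem_singleton] at hx
      rw [hj, Finset.mem_singleton] at hy
      rw [← hx, ← hy]
      exact hxy
    · rw [hi, Finset.mem_inter, Finset.mem_singleton] at hz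
      exact absurd (hz.1 ▸ hz.2) hiZ
  -- a vertex outside of `Z` with a neighbour is in `K`
  have hinK : ∀ u ∈ W, ∀ v ∈ W, v ∉ Z → Q.Adj v u → v ∈ K := by
    intro u hu v hv hvZ hvu
    have h1 := hnoB u hu v hv hvZ hvu
    push Not at h1
    obtain ⟨j, hj⟩ := h1.2
    have h2 := hsing j v hj hvZ
    have hjJ : j ∈ J := by
      rw [Finset.mem_filter]
      exact ⟨Finset.mem_univ _, fun h => hvZ (h hj)⟩
    have h3 := hf j
    rw [h2, Finset.mem_singleton] at h3
    exact Finset.mem_image.2 ⟨j, hjJ, h3⟩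
  -- Hall
  let t : {z // z ∈ Z} → Finset V := fun z => K.filter fun v => Q.Adj z v
  have hhall : ∀ A : Finset {z // z ∈ Z}, A.card ≤ (A.biUnion t).card := by
    intro A
    by_contra hlt
    push Not at hlt
    let A' : Finset V := A.map (Function.Embedding.subtype _)
    have hA'c : A'.card = A.card := Finset.card_map _
    have hA'Z : A' ⊆ Z := by
      intro z hz
      rw [Finset.mem_map] at hz
      obtain ⟨z', _, rfl⟩ := hz
      exact z'.2
    have hNW : ∀ v ∈ A.biUnion t, v ∈ K := by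
      intro v hv
      rw [Finset.mem_biUnion] at hv
      obtain ⟨z, _, hz⟩ := hv
      exact (Finset.mem_filter.1 hz).1
    have hNZ : ∀ v ∈ A.biUnion t, v ∉ Z ∧ v ∈ W := by
      intro v hv
      obtain ⟨_, _, h1, h2⟩ := hK v (hNW v hv)
      exact ⟨h1, h2⟩
    have hsep : IsSep Q W (Z ∪ A.biUnion t) (W \ A') := by
      refine ⟨?_, ?_⟩
      · ext v
        simp only [Finset.mem_union, Finset.mem_sdiff]
        constructor
        · rintro ((h | h) | h)
          · exact H.hZ h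
          · exact (hNZ v h).2
          · exact h.1
        · intro h
          by_cases hv : v ∈ A'
          · exact Or.inl (Or.inl (hA'Z hv))
          · exact Or.inr ⟨h, hv⟩
      · intro a ha b hb hab
        simp only [Finset.mem_sdiff, Finset.mem_union] at ha hb
        push Not at ha hb
        have haW : a ∈ W := by
          rcases ha.1 with h | h
          · exact H.hZ h
          · exact (hNZ a h).2
        have haA : a ∈ A' := ha.2 haW
        have hbK : b ∈ K := hinK a haW b hb.1.1 hb.2.1 hab.symm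
        apply hb.2.2
        rw [Finset.mem_map] at haA
        obtain ⟨z, hz, rfl⟩ := haA
        rw [Finset.mem_biUnion]
        exact ⟨z, hz, Finset.mem_filter.2 ⟨hbK, hab⟩⟩
    have hexi : ∃ i, B i ⊆ (W \ A') \ (Z ∪ A.biUnion t) := by
      have h1 : (A.biUnion t).card < K.card := by
        have h2 : A.card ≤ Z.card := by
          rw [← hA'c]; exact Finset.card_le_card hA'Z
        omega
      obtain ⟨v, hv, hvN⟩ := Finset.exists_mem_notMem_of_card_lt_card h1
      obtain ⟨j, hj, hjZ, hjW⟩ := hK v hv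
      refine ⟨j, ?_⟩
      rw [hj, Finset.singleton_subset_iff]
      simp only [Finset.mem_sdiff, Finset.mem_union]
      exact ⟨⟨hjW, fun h => hjZ (hA'Z h)⟩, fun h => h.elim hjZ hvN⟩
    have h3 := H.h3 _ _ hsep Finset.subset_union_left hexi
    have h4 : (Z ∪ A.biUnion t) ∩ (W \ A') ⊆ (Z \ A') ∪ A.biUnion t := by
      intro v hv
      simp only [Finset.mem_inter, Finset.mem_union, Finset.mem_sdiff] at hv ⊢
      tauto
    have h5 := (h3.trans (Finset.card_le_card h4)).trans (Finset.card_union_le _ _)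
    have h6 : (Z \ A').card + A'.card = Z.card := Finset.card_sdiff_add_card_eq_card hA'Z
    omega
  obtain ⟨g, hginj, hg⟩ := (Finset.all_card_le_biUnion_card_iff_exists_injective t).1 hhall
  have hg' : ∀ z, g z ∈ K ∧ Q.Adj z (g z) := fun z => Finset.mem_filter.1 (hg z)
  have hgZ : ∀ z, g z ∉ Z ∧ g z ∈ W := by
    intro z
    obtain ⟨_, _, h1, h2⟩ := hK _ (hg' z).1
    exact ⟨h1, h2⟩
  refine ⟨fun z => if h : z ∈ Z then {z, g ⟨z, h⟩} else ∅, ?_, ?_⟩
  · intro z hz
    dsimp only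
    rw [dif_pos hz]
    refine ⟨Finset.mem_insert_self _ _, ?_, ?_⟩
    · have := Conn.union (Conn.singleton Q z) (Conn.singleton Q (g ⟨z, hz⟩))
        ⟨z, Finset.mem_singleton_self z, _, Finset.mem_singleton_self _, Or.inr (hg' ⟨z, hz⟩).2⟩
      exact this
    · intro x hx
      rw [Finset.mem_insert, Finset.mem_singleton] at hx
      rcases hx with rfl | rfl
      · exact H.hZ hz
      · exact (hgZ _).2
  · intro z hz z' hz' hne
    dsimp only
    rw [dif_pos hz, dif_pos hz']
    have hgne : g ⟨z, hz⟩ ≠ g ⟨z', hz'⟩ := fun h => hne (congrArg Subtype.val (hginj h))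
    constructor
    · rw [Finset.disjoint_left]
      intro x hx hx'
      rw [Finset.mem_insert, Finset.mem_singleton] at hx hx'
      rcases hx with rfl | rfl <;> rcases hx' with h | h
      · exact hne h
      · exact (hgZ _).1 (h ▸ hz)
      · exact (hgZ _).1 (h ▸ hz')
      · exact hgne h
    · refine ⟨g ⟨z, hz⟩, by simp, g ⟨z', hz'⟩, by simp, ?_⟩
      exact hclique _ (hg' _).1 _ (hg' _).1 hgne

theorem good_of_RH [Fintype V] (n : ℕ) : ∀ (Q : SimpleGraph V) (W Z : Finset V)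
    (B : Fin m → Finset V), W.card = n → RH Q W Z B → Good Q W Z := by
  induction n using Nat.strong_induction_on with
  | _ n ih =>
  intro Q W Z B hn H
  have ih' : ∀ (Q' : SimpleGraph V) (Z' W' : Finset V) (B' : Fin m → Finset V),
      W'.card < W.card → RH Q' W' Z' B' → Good Q' W' Z' :=
    fun Q' Z' W' B' hlt H' => ih _ (hn ▸ hlt) Q' W' Z' B' rfl H'
  by_cases hA : ∃ X₁ X₂ : Finset V, IsSep Q W X₁ X₂ ∧ Z ⊆ X₁ ∧ (∃ i, B i ⊆ X₂ \ X₁) ∧
      (X₁ ∩ X₂).card = Z.card ∧ (X₁ \ X₂).Nonempty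
  · obtain ⟨X₁, X₂, h1, h2, ⟨i, hi⟩, h4, h5⟩ := hA
    exact caseA H (ih' Q) X₁ X₂ h1 h2 i hi h4 h5
  by_cases hB : ∃ u ∈ W, ∃ v ∈ W, v ∉ Z ∧ Q.Adj v u ∧
      ((∃ j, u ∈ B j ∧ v ∈ B j) ∨ ∀ j, v ∉ B j)
  · obtain ⟨u, hu, v, hv, h1, h2, h3⟩ := hB
    exact caseB H ih' (fun X₁ X₂ a b c d e => hA ⟨X₁, X₂, a, b, c, d, e⟩) u v hu hv h1 h2 h3
  · exact caseC H (fun u hu v hv h1 h2 h3 => hB ⟨u, hu, v, hv, h1, h2, h3⟩)

end Rooted

/-- PM-10: the rooted model lemma of Robertson and Seymour. -/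
theorem rooted_model {V : Type} [Fintype V] (Q : SimpleGraph V) (Z : Finset V) (m : ℕ)
    (hm : 2 * Z.card ≤ m) (B : Fin m → Finset V) (hB : Model Q B)
    (hsep : ∀ X₁ X₂ : Finset V, IsSep Q univ X₁ X₂ → Z ⊆ X₁ → (∃ i, B i ⊆ X₂ \ X₁) →
      Z.card ≤ (X₁ ∩ X₂).card) :
    ∃ C : V → Finset V, (∀ z ∈ Z, z ∈ C z ∧ ConnIn Q (C z)) ∧
      ∀ z ∈ Z, ∀ z' ∈ Z, z ≠ z' → Disjoint (C z) (C z') ∧ ∃ x ∈ C z, ∃ y ∈ C z', Q.Adj x y := by
  obtain ⟨C, hC, hd⟩ := Rooted.good_of_RH _ Q univ Z B rfl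
    ⟨Finset.subset_univ _, hm, fun i => (hB.1 i).1, fun i => Finset.subset_univ _, hB.2.1,
      fun i => Or.inl (hB.1 i), fun i j hij => Or.inl (hB.2.2 i j hij), hsep⟩
  exact ⟨C, fun z hz => ⟨(hC z hz).1, (hC z hz).2.1⟩, hd⟩

end Pool.Agent.Helper35.PM
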